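import Pool.Agent.R483.KB.Wt

/-!
The weight `W = ∑ c_j wt(s_j)`.
-/

namespace Pool.Agent.R483.KB

open Real Set MeasureTheory Filter Topology

/-- `s_j = (j+1)/(j+2)` -/
noncomputable def sj (j : ℕ) : ℝ := ((j : ℝ) + 1) / ((j : ℝ) + 2)

theorem sj_pos (j : ℕ) : 0 < sj j := by unfold sj; positivity

theorem sj_lt_one (j : ℕ) : sj j < 1 := by
  unfold sj; rw [div_lt_one (by positivity)]; linarith

theorem sj_mono {i j : ℕ} (h : i ≤ j) : sj i ≤ sj j := by
  unfold sj
  have : (i : ℝ) ≤ j := by exact_mod_cast h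
  rw [div_le_div_iff₀ (by positivity) (by positivity)]
  nlinarith

theorem sj_tendsto : Tendsto sj atTop (𝓝 1) := by
  have h1 : sj = fun j : ℕ => 1 - 1 / ((j : ℝ) + 2) := by
    ext j; unfold sj; field_simp; ring
  rw [h1]
  have h2 : Tendsto (fun j : ℕ => 1 / ((j : ℝ) + 2)) atTop (𝓝 0) := by
    have := (tendsto_const_nhds (x := (1:ℝ))).div_atTop
      (tendsto_atTop_add_const_right atTop (2 : ℝ) (tendsto_natCast_atTop_atTop (R := ℝ)))
    exact this
  simpa using tendsto_const_nhds.sub h2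

/-- good coefficient sequences -/
structure Good (c : ℕ → ℝ) : Prop where
  zero : c 0 = 1
  pos : ∀ j, 0 < c j
  half : ∀ j, c (j + 1) ≤ c j / 2

variable {c : ℕ → ℝ}

theorem Good.add (h : Good c) (j i : ℕ) : c (j + i) ≤ c j * (1 / 2) ^ i := by
  induction i with
  | zero => simp
  | succ i ih =>
    have := h.half (j + i)
    calc c (j + (i + 1)) ≤ c (j + i) / 2 := this
      _ ≤ c j * (1 / 2) ^ i / 2 := by linarith
      _ = _ := by rw [pow_succ]; ring

theorem Good.le_of_le (h : Good c) {i j : ℕ} (hij : i ≤ j) : c j ≤ c i := by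
  obtain ⟨k, rfl⟩ := Nat.exists_eq_add_of_le hij
  refine (h.add i k).trans ?_
  have : (1 / 2 : ℝ) ^ k ≤ 1 := pow_le_one₀ (by norm_num) (by norm_num)
  nlinarith [h.pos i]

theorem Good.le_one (h : Good c) (j : ℕ) : c j ≤ 1 := by
  have := h.le_of_le (Nat.zero_le j)
  rwa [h.zero] at this

theorem Good.summable (h : Good c) : Summable c := by
  apply Summable.of_nonneg_of_le (fun j => (h.pos j).le) (fun j => ?_)
    (summable_geometric_of_lt_one (r := 1/2) (by norm_num) (by norm_num))
  have := h.add 0 j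
  rw [zero_add, h.zero, one_mul] at this
  exact this

theorem Good.one_le_tsum (h : Good c) : 1 ≤ ∑' j, c j := by
  have := h.summable.le_tsum 0 (fun j _ => (h.pos j).le)
  rwa [h.zero] at this

theorem Good.tsum_tail (h : Good c) (j : ℕ) : ∑' i, c (j + i) ≤ 2 * c j := by
  have h1 : Summable (fun i : ℕ => c j * (1 / 2 : ℝ) ^ i) :=
    (summable_geometric_of_lt_one (by norm_num) (by norm_num)).mul_left _
  have h2 : Summable (fun i : ℕ => c (j + i)) :=
    Summable.of_nonneg_of_le (fun i => (h.pos _).le) (h.add j) h1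
  calc ∑' i, c (j + i) ≤ ∑' i : ℕ, c j * (1 / 2 : ℝ) ^ i := h2.tsum_le_tsum (h.add j) h1
    _ = 2 * c j := by
      rw [tsum_mul_left, tsum_geometric_of_lt_one (by norm_num) (by norm_num)]
      norm_num; ring

theorem Good.tsum_le_two (h : Good c) : ∑' j, c j ≤ 2 := by
  have := h.tsum_tail 0
  simp only [zero_add, h.zero, mul_one] at this
  exact this

/-- the weight -/
noncomputable def WW (c : ℕ → ℝ) (θ : ℝ) : ℝ := ∑' j, c j * wt (sj j) θ

theorem wt_bdd (θ : ℝ) : ∃ B, ∀ j, wt (sj j) θ ≤ B := by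
  by_cases hc : cos (θ / 2) = 0
  · refine ⟨0, fun j => ?_⟩
    unfold wt; rw [hc]; simp
  · have h1 : Tendsto (fun s : ℝ => wt s θ) (𝓝 1) (𝓝 (wt 1 θ)) := by
      have : ContinuousAt (fun s : ℝ => wt s θ) 1 := by
        unfold wt
        apply ContinuousAt.div continuousAt_const
        · apply ContinuousAt.mul continuousAt_const
          exact ((continuousAt_id.pow 2).sub continuousAt_const).sqrt
        · have : 0 < 1 ^ 2 - sin (θ / 2) ^ 2 := by
            have h2 := sin_sq_add_cos_sq (θ / 2)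
            have h3 : 0 < cos (θ / 2) ^ 2 := by positivity
            linarith
          have := Real.sqrt_pos.mpr this
          positivity
      exact this
    have h2 := h1.comp sj_tendsto
    obtain ⟨B, hB⟩ := h2.bddAbove_range
    exact ⟨B, fun j => hB ⟨j, rfl⟩⟩

theorem WW_summable (h : Good c) (θ : ℝ) : Summable (fun j => c j * wt (sj j) θ) := by
  obtain ⟨B, hB⟩ := wt_bdd θ
  apply Summable.of_nonneg_of_le (fun j => mul_nonneg (h.pos j).le (wt_nonneg _ _))
    (fun j => mul_le_mul_of_nonneg_left (hB j) (h.pos j).le) (h.summable.mul_right B)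

theorem WW_nonneg (h : Good c) (θ : ℝ) : 0 ≤ WW c θ :=
  tsum_nonneg (fun j => mul_nonneg (h.pos j).le (wt_nonneg _ _))

theorem WW_ge (h : Good c) (j : ℕ) (θ : ℝ) : c j * wt (sj j) θ ≤ WW c θ :=
  (WW_summable h θ).le_tsum j (fun j _ => mul_nonneg (h.pos j).le (wt_nonneg _ _))

theorem WW_measurable (h : Good c) : Measurable (WW c) := by
  apply measurable_of_tendsto_metrizable
    (f := fun (n : ℕ) (θ : ℝ) => ∑ j ∈ Finset.range n, c j * wt (sj j) θ)
  · intro n
    exact Finset.measurable_sum _ (fun j _ => (wt_measurable _).const_mul _)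
  · rw [tendsto_pi_nhds]
    intro θ
    exact (WW_summable h θ).hasSum.tendsto_sum_nat

theorem WW_periodic (c : ℕ → ℝ) : Function.Periodic (WW c) (2 * π) := by
  intro θ
  unfold WW
  apply tsum_congr
  intro j
  rw [wt_periodic]

theorem WW_pos (h : Good c) {θ : ℝ} (hθ : cos (θ / 2) ≠ 0) : 0 < WW c θ := by
  have h1 : |sin (θ / 2)| < 1 := by
    have h2 := sin_sq_add_cos_sq (θ / 2)
    have h3 : 0 < cos (θ / 2) ^ 2 := by positivity
    rw [abs_lt]; constructor <;> nlinarith
  obtain ⟨j, hj⟩ := ((sj_tendsto.eventually (lt_mem_nhds h1))).exists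
  refine lt_of_lt_of_le ?_ (WW_ge h j θ)
  apply mul_pos (h.pos j)
  unfold wt
  have : 0 < sj j ^ 2 - sin (θ / 2) ^ 2 := by
    rw [← sq_abs (sin (θ / 2))]
    nlinarith [abs_nonneg (sin (θ / 2))]
  have := Real.sqrt_pos.mpr this
  positivity

theorem WW_ae (h : Good c) : ∀ᵐ θ : ℝ, WW c θ ≠ 0 := by
  have hnull : volume {θ : ℝ | cos (θ / 2) = 0} = 0 := by
    apply Set.Countable.measure_zero
    have : {θ : ℝ | cos (θ / 2) = 0} ⊆ Set.range (fun k : ℤ => (2 * (k : ℝ) + 1) * π) := by
      intro θ hθ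
      rw [Set.mem_setOf_eq, cos_eq_zero_iff] at hθ
      obtain ⟨k, hk⟩ := hθ
      exact ⟨k, by simp only; linarith⟩
    exact (Set.countable_range _).mono this
  rw [ae_iff]
  apply measure_mono_null _ hnull
  intro θ hθ
  simp only [ne_eq, not_not, Set.mem_setOf_eq] at hθ ⊢
  by_contra hcon
  exact (WW_pos h hcon).ne' hθ

/-- mean of `f ∘ Th s` -/
noncomputable def TM (s : ℝ) (f : ℝ → ℝ) : ℝ := (∫ φ in (-π)..π, f (Th s φ)) / (2 * π)

theorem TM_eq (s : ℝ) (f : ℝ → ℝ) :
    TM s f = (∫ φ in Ioo (-π) π, f (Th s φ)) * (1 / (2 * π)) := by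
  unfold TM
  rw [intervalIntegral.integral_of_le (by linarith [pi_pos]), integral_Ioc_eq_integral_Ioo]
  ring

theorem TM_abs_le {s : ℝ} {f : ℝ → ℝ} {B : ℝ} (hs0 : 0 ≤ s) (hs1 : s < 1)
    (hB : ∀ x ∈ Icc (-π) π, |f x| ≤ B) : |TM s f| ≤ B := by
  unfold TM
  rw [abs_div, abs_of_pos (by positivity : (0 : ℝ) < 2 * π), div_le_iff₀ (by positivity)]
  have := intervalIntegral.norm_integral_le_of_norm_le_const (a := -π) (b := π)
    (f := fun φ => f (Th s φ)) (C := B) (fun φ _ => by
      rw [Real.norm_eq_abs]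
      have := abs_lt.mp (abs_Th_lt hs0 hs1 φ)
      exact hB _ ⟨this.1.le, this.2.le⟩)
  rw [Real.norm_eq_abs] at this
  refine this.trans (le_of_eq ?_)
  rw [show π - -π = 2 * π by ring, abs_of_pos (by positivity)]

theorem hasSum_W (h : Good c) {f : ℝ → ℝ} (hf : Continuous f) :
    HasSum (fun j => c j * TM (sj j) f) (∫ x in (-π)..π, f x * WW c x) := by
  obtain ⟨B, hB⟩ := isCompact_Icc.exists_bound_of_continuousOn (s := Icc (-π) π) hf.continuousOn
  have h1 := hasSum_integral_of_summable_integral_norm (μ := volume.restrict (Ioo (-π) π))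
    (F := fun (j : ℕ) (θ : ℝ) => c j * (f θ * wt (sj j) θ)) ?_ ?_
  · have h2 : ∀ j, ∫ θ in Ioo (-π) π, c j * (f θ * wt (sj j) θ) = c j * TM (sj j) f := by
      intro j
      rw [integral_const_mul, change (sj_pos j) (sj_lt_one j), TM_eq]
    simp only [h2] at h1
    have h3 : ∫ x in (-π)..π, f x * WW c x =
        ∫ θ in Ioo (-π) π, ∑' j, c j * (f θ * wt (sj j) θ) := by
      rw [intervalIntegral.integral_of_le (by linarith [pi_pos]), integral_Ioc_eq_integral_Ioo]
      congr 1
      ext θ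
      unfold WW
      rw [← tsum_mul_left]
      apply tsum_congr
      intro j; ring
    rw [h3]
    exact h1
  · intro j
    exact (change_integrable (sj_pos j) (sj_lt_one j) hf).const_mul _
  · have h2 : ∀ j, ∫ θ in Ioo (-π) π, ‖c j * (f θ * wt (sj j) θ)‖ = c j * TM (sj j) (fun x => |f x|) := by
      intro j
      have : ∀ θ, ‖c j * (f θ * wt (sj j) θ)‖ = c j * (|f θ| * wt (sj j) θ) := by
        intro θ
        rw [norm_mul, norm_mul, Real.norm_eq_abs, Real.norm_eq_abs, Real.norm_eq_abs,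
          abs_of_pos (h.pos j), abs_of_nonneg (wt_nonneg _ _)]
      simp only [this]
      rw [integral_const_mul, change (sj_pos j) (sj_lt_one j), TM_eq]
    simp only [h2]
    apply Summable.of_norm_bounded (h.summable.mul_right B)
    intro j
    rw [norm_mul, Real.norm_eq_abs, Real.norm_eq_abs, abs_of_pos (h.pos j)]
    apply mul_le_mul_of_nonneg_left _ (h.pos j).le
    apply TM_abs_le (sj_pos j).le (sj_lt_one j)
    intro x hx
    rw [abs_abs]
    exact hB x hx

theorem TM_one (s : ℝ) : TM s (fun _ => 1) = 1 := by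
  unfold TM
  simp
  field_simp
  norm_num

theorem integral_W (h : Good c) : ∫ x in (-π)..π, WW c x = ∑' j, c j := by
  have := (hasSum_W h (f := fun _ => 1) continuous_const).tsum_eq
  simp only [TM_one, mul_one, one_mul] at this
  exact this.symm

theorem W_integrable (h : Good c) : IntervalIntegrable (WW c) volume (-π) π := by
  by_contra hcon
  have h1 := intervalIntegral.integral_undef hcon
  rw [integral_W h] at h1
  linarith [h.one_le_tsum]

end Pool.Agent.R483.KB
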