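import Pool.Agent.R483.KB.Defs
import Pool.Agent.R483.KB.Series

/-!
Orthogonality, coefficient bounds for nonnegative trigonometric polynomials, and boundedness of
the Kane ratios.
-/

namespace Pool.Agent.R483.KB

open Real Finset MeasureTheory

theorem int_cos_int (m : ℤ) : ∫ θ in (-π)..π, cos ((m : ℝ) * θ) = if m = 0 then 2 * π else 0 := by
  by_cases h : m = 0
  · subst h
    simp
    ring
  · rw [if_neg h]
    have h' : (m : ℝ) ≠ 0 := by exact_mod_cast h
    rw [intervalIntegral.integral_comp_mul_left (fun x => cos x) h', integral_cos]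
    have : sin ((m : ℝ) * -π) = - sin ((m : ℝ) * π) := by rw [mul_neg, sin_neg]
    rw [this, sin_int_mul_pi]
    simp

theorem ii_cos (x : ℝ) : IntervalIntegrable (fun θ => cos (x * θ)) volume (-π) π :=
  (continuous_cos.comp (continuous_const.mul continuous_id)).intervalIntegrable _ _

theorem int_cc (k l : ℕ) (hl : 0 < l) :
    ∫ θ in (-π)..π, cos ((k : ℝ) * θ) * cos ((l : ℝ) * θ) = if k = l then π else 0 := by
  have h1 : ∀ θ : ℝ, cos ((k : ℝ) * θ) * cos ((l : ℝ) * θ) =
      (1 / 2) * (cos ((((k : ℤ) - (l : ℤ) : ℤ) : ℝ) * θ) + cos ((((k : ℤ) + (l : ℤ) : ℤ) : ℝ) * θ)) := by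
    intro θ
    push_cast
    rw [sub_mul, add_mul, cos_add, cos_sub]
    ring
  simp only [h1]
  rw [intervalIntegral.integral_const_mul, intervalIntegral.integral_add (ii_cos _) (ii_cos _),
    int_cos_int, int_cos_int, if_neg (show ¬ ((k : ℤ) + (l : ℤ) = 0) by omega)]
  by_cases h : k = l
  · subst h
    simp
  · rw [if_neg h, if_neg (by omega)]; simp

theorem int_ss (k l : ℕ) (hl : 0 < l) :
    ∫ θ in (-π)..π, sin ((k : ℝ) * θ) * sin ((l : ℝ) * θ) = if k = l then π else 0 := by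
  have h1 : ∀ θ : ℝ, sin ((k : ℝ) * θ) * sin ((l : ℝ) * θ) =
      (1 / 2) * (cos ((((k : ℤ) - (l : ℤ) : ℤ) : ℝ) * θ) - cos ((((k : ℤ) + (l : ℤ) : ℤ) : ℝ) * θ)) := by
    intro θ
    push_cast
    rw [sub_mul, add_mul, cos_add, cos_sub]
    ring
  simp only [h1]
  rw [intervalIntegral.integral_const_mul, intervalIntegral.integral_sub (ii_cos _) (ii_cos _),
    int_cos_int, int_cos_int, if_neg (show ¬ ((k : ℤ) + (l : ℤ) = 0) by omega)]
  by_cases h : k = l
  · subst h
    simp
  · rw [if_neg h, if_neg (by omega)]; simp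

theorem int_odd {f : ℝ → ℝ} (hf : ∀ x, f (-x) = - f x) : ∫ θ in (-π)..π, f θ = 0 := by
  have h1 := intervalIntegral.integral_comp_neg (a := -π) (b := π) f
  rw [neg_neg] at h1
  simp only [hf] at h1
  rw [intervalIntegral.integral_neg] at h1
  linarith

theorem int_sc (k l : ℕ) : ∫ θ in (-π)..π, sin ((k : ℝ) * θ) * cos ((l : ℝ) * θ) = 0 := by
  apply int_odd
  intro x
  rw [mul_neg, mul_neg, sin_neg, cos_neg]; ring

variable {n : ℕ} {a b : ℕ → ℝ}

/-- the trigonometric polynomial with coefficients `a`, `b` -/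
noncomputable def tp (n : ℕ) (a b : ℕ → ℝ) (θ : ℝ) : ℝ :=
  ∑ k ∈ range (n + 1), (a k * cos (k * θ) + b k * sin (k * θ))

theorem tp_cont (n : ℕ) (a b : ℕ → ℝ) : Continuous (tp n a b) := by
  unfold tp
  apply continuous_finsetSum
  intro k _
  exact (continuous_const.mul (continuous_cos.comp (continuous_const.mul continuous_id))).add
    (continuous_const.mul (continuous_sin.comp (continuous_const.mul continuous_id)))

theorem tp_int_mul {f : ℝ → ℝ} (hf : Continuous f) :
    ∫ θ in (-π)..π, tp n a b θ * f θ = ∑ k ∈ range (n + 1),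
      (a k * (∫ θ in (-π)..π, cos (k * θ) * f θ) + b k * (∫ θ in (-π)..π, sin (k * θ) * f θ)) := by
  have h1 : ∀ k ∈ range (n + 1), IntervalIntegrable
      (fun θ => a k * (cos (k * θ) * f θ) + b k * (sin (k * θ) * f θ)) volume (-π) π := by
    intro k _
    apply Continuous.intervalIntegrable
    exact (continuous_const.mul ((continuous_cos.comp (continuous_const.mul continuous_id)).mul hf)).add
      (continuous_const.mul ((continuous_sin.comp (continuous_const.mul continuous_id)).mul hf))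
  have h2 : ∀ θ, tp n a b θ * f θ = ∑ k ∈ range (n + 1),
      (a k * (cos (k * θ) * f θ) + b k * (sin (k * θ) * f θ)) := by
    intro θ
    unfold tp
    rw [Finset.sum_mul]
    apply Finset.sum_congr rfl
    intro k _
    ring
  simp only [h2]
  rw [intervalIntegral.integral_finsetSum h1]
  apply Finset.sum_congr rfl
  intro k _
  rw [intervalIntegral.integral_add, intervalIntegral.integral_const_mul,
    intervalIntegral.integral_const_mul]
  · apply Continuous.intervalIntegrable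
    exact (continuous_const.mul ((continuous_cos.comp (continuous_const.mul continuous_id)).mul hf))
  · apply Continuous.intervalIntegrable
    exact (continuous_const.mul ((continuous_sin.comp (continuous_const.mul continuous_id)).mul hf))

theorem tp_int : ∫ θ in (-π)..π, tp n a b θ = 2 * π * a 0 := by
  have h := tp_int_mul (n := n) (a := a) (b := b) (f := fun _ => 1) continuous_const
  simp only [mul_one] at h
  rw [h]
  have h1 : ∀ k : ℕ, ∫ θ in (-π)..π, cos ((k : ℝ) * θ) = if k = 0 then 2 * π else 0 := by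
    intro k
    have := int_cos_int (k : ℤ)
    push_cast at this
    rw [this]
    simp
  have h2 : ∀ k : ℕ, ∫ θ in (-π)..π, sin ((k : ℝ) * θ) = 0 := by
    intro k
    apply int_odd
    intro x; rw [mul_neg, sin_neg]
  simp only [h1, h2, mul_zero, add_zero, mul_ite]
  rw [Finset.sum_ite_eq']
  simp
  ring

theorem tp_int_cos {l : ℕ} (hl : 0 < l) (hln : l ≤ n) :
    ∫ θ in (-π)..π, tp n a b θ * cos (l * θ) = π * a l := by
  rw [tp_int_mul (f := fun θ => cos (l * θ))
    (continuous_cos.comp (continuous_const.mul continuous_id))]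
  simp only [int_cc _ _ hl, int_sc, mul_zero, add_zero, mul_ite]
  rw [Finset.sum_ite_eq']
  rw [if_pos (by rw [Finset.mem_range]; omega)]
  ring

theorem tp_int_sin {l : ℕ} (hl : 0 < l) (hln : l ≤ n) :
    ∫ θ in (-π)..π, tp n a b θ * sin (l * θ) = π * b l := by
  rw [tp_int_mul (f := fun θ => sin (l * θ))
    (continuous_sin.comp (continuous_const.mul continuous_id))]
  have h1 : ∀ k : ℕ, ∫ θ in (-π)..π, cos ((k : ℝ) * θ) * sin ((l : ℝ) * θ) = 0 := by
    intro k
    rw [← int_sc l k]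
    congr 1; ext θ; ring
  simp only [int_ss _ _ hl, h1, mul_zero, zero_add, mul_ite]
  rw [Finset.sum_ite_eq']
  rw [if_pos (by rw [Finset.mem_range]; omega)]
  ring

theorem tp_abs_int {g : ℝ → ℝ} (hg : Continuous g) (hg1 : ∀ θ, |g θ| ≤ 1)
    (hpos : ∀ θ, 0 ≤ tp n a b θ) :
    |∫ θ in (-π)..π, tp n a b θ * g θ| ≤ 2 * π * a 0 := by
  rw [← tp_int (n := n) (a := a) (b := b)]
  refine (intervalIntegral.abs_integral_le_integral_abs (by linarith [pi_pos])).trans ?_
  apply intervalIntegral.integral_mono_on (by linarith [pi_pos])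
  · exact ((tp_cont n a b).mul hg).abs.intervalIntegrable _ _
  · exact (tp_cont n a b).intervalIntegrable _ _
  · intro θ _
    rw [abs_mul, abs_of_nonneg (hpos θ)]
    calc tp n a b θ * |g θ| ≤ tp n a b θ * 1 := mul_le_mul_of_nonneg_left (hg1 θ) (hpos θ)
      _ = _ := mul_one _

theorem a0_nonneg (hpos : ∀ θ, 0 ≤ tp n a b θ) : 0 ≤ a 0 := by
  have h1 : 0 ≤ ∫ θ in (-π)..π, tp n a b θ :=
    intervalIntegral.integral_nonneg (by linarith [pi_pos]) (fun θ _ => hpos θ)
  rw [tp_int] at h1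
  by_contra hcon
  push Not at hcon
  nlinarith [pi_pos]

theorem coef_bound (hpos : ∀ θ, 0 ≤ tp n a b θ) {l : ℕ} (hl : 0 < l) (hln : l ≤ n) :
    |a l| ≤ 2 * a 0 ∧ |b l| ≤ 2 * a 0 := by
  have h1 := tp_abs_int (g := fun θ => cos (l * θ))
    (continuous_cos.comp (continuous_const.mul continuous_id)) (fun θ => abs_cos_le_one _) hpos
  have h2 := tp_abs_int (g := fun θ => sin (l * θ))
    (continuous_sin.comp (continuous_const.mul continuous_id)) (fun θ => abs_sin_le_one _) hpos
  rw [tp_int_cos hl hln, abs_mul, abs_of_pos pi_pos] at h1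
  rw [tp_int_sin hl hln, abs_mul, abs_of_pos pi_pos] at h2
  constructor
  · nlinarith [pi_pos]
  · nlinarith [pi_pos]

theorem tp_le (hpos : ∀ θ, 0 ≤ tp n a b θ) (θ : ℝ) : tp n a b θ ≤ (4 * n + 1) * a 0 := by
  have ha0 := a0_nonneg hpos
  unfold tp
  rw [Finset.sum_range_succ']
  have h1 : ∀ k ∈ range n, a (k + 1) * cos ((k + 1 : ℕ) * θ) + b (k + 1) * sin ((k + 1 : ℕ) * θ) ≤
      4 * a 0 := by
    intro k hk
    rw [Finset.mem_range] at hk
    obtain ⟨h2, h3⟩ := coef_bound hpos (l := k + 1) (by omega) (by omega)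
    have h4 : a (k + 1) * cos ((k + 1 : ℕ) * θ) ≤ |a (k + 1)| * 1 := by
      refine (le_abs_self _).trans ?_
      rw [abs_mul]
      exact mul_le_mul_of_nonneg_left (abs_cos_le_one _) (abs_nonneg _)
    have h5 : b (k + 1) * sin ((k + 1 : ℕ) * θ) ≤ |b (k + 1)| * 1 := by
      refine (le_abs_self _).trans ?_
      rw [abs_mul]
      exact mul_le_mul_of_nonneg_left (abs_sin_le_one _) (abs_nonneg _)
    linarith
  have h2 := Finset.sum_le_sum h1
  rw [Finset.sum_const, Finset.card_range, nsmul_eq_mul] at h2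
  simp only [Nat.cast_zero, zero_mul, cos_zero, sin_zero, mul_one, mul_zero, add_zero]
  linarith

theorem tp_hasDeriv (n : ℕ) (a b : ℕ → ℝ) (θ : ℝ) : HasDerivAt (tp n a b)
    (∑ k ∈ range (n + 1), (a k * (-sin (k * θ) * k) + b k * (cos (k * θ) * k))) θ := by
  unfold tp
  apply HasDerivAt.fun_sum
  intro k _
  have h1 : HasDerivAt (fun x : ℝ => (k : ℝ) * x) k θ := by
    simpa using (hasDerivAt_id θ).const_mul (k : ℝ)
  exact (h1.cos.const_mul (a k)).add (h1.sin.const_mul (b k))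

theorem tp_deriv_le (hpos : ∀ θ, 0 ≤ tp n a b θ) (θ : ℝ) :
    |deriv (tp n a b) θ| ≤ 4 * (n : ℝ) ^ 2 * a 0 := by
  rw [(tp_hasDeriv n a b θ).deriv]
  have ha0 := a0_nonneg hpos
  rw [Finset.sum_range_succ']
  simp only [Nat.cast_zero, zero_mul, mul_zero, add_zero]
  refine (Finset.abs_sum_le_sum_abs _ _).trans ?_
  have h1 : ∀ k ∈ range n, |a (k + 1) * (-sin ((k + 1 : ℕ) * θ) * (k + 1 : ℕ)) +
      b (k + 1) * (cos ((k + 1 : ℕ) * θ) * (k + 1 : ℕ))| ≤ 4 * n * a 0 := by
    intro k hk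
    rw [Finset.mem_range] at hk
    obtain ⟨h2, h3⟩ := coef_bound hpos (l := k + 1) (by omega) (by omega)
    have hk1 : (((k + 1 : ℕ)) : ℝ) ≤ n := by exact_mod_cast hk
    have hk0 : (0 : ℝ) ≤ ((k + 1 : ℕ) : ℝ) := Nat.cast_nonneg _
    refine (abs_add_le _ _).trans ?_
    rw [abs_mul, abs_mul, abs_mul, abs_mul, abs_neg, abs_of_nonneg hk0]
    have h4 : |sin ((k + 1 : ℕ) * θ)| * ((k + 1 : ℕ) : ℝ) ≤ 1 * n :=
      mul_le_mul (abs_sin_le_one _) hk1 hk0 zero_le_one
    have h5 : |cos ((k + 1 : ℕ) * θ)| * ((k + 1 : ℕ) : ℝ) ≤ 1 * n :=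
      mul_le_mul (abs_cos_le_one _) hk1 hk0 zero_le_one
    have h6 : |a (k + 1)| * (|sin ((k + 1 : ℕ) * θ)| * ((k + 1 : ℕ) : ℝ)) ≤ (2 * a 0) * (1 * n) :=
      mul_le_mul h2 h4 (by positivity) (by linarith)
    have h7 : |b (k + 1)| * (|cos ((k + 1 : ℕ) * θ)| * ((k + 1 : ℕ) : ℝ)) ≤ (2 * a 0) * (1 * n) :=
      mul_le_mul h3 h5 (by positivity) (by linarith)
    linarith
  refine (Finset.sum_le_sum h1).trans ?_
  rw [Finset.sum_const, Finset.card_range, nsmul_eq_mul]
  nlinarith

theorem a0_pos (hpos : ∀ θ, 0 ≤ tp n a b θ) (hne : ∃ θ, tp n a b θ ≠ 0) : 0 < a 0 := by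
  obtain ⟨θ, hθ⟩ := hne
  have h1 := tp_le hpos θ
  have h2 := lt_of_le_of_ne (hpos θ) (Ne.symm hθ)
  by_contra hcon
  push Not at hcon
  have : (4 * (n : ℝ) + 1) * a 0 ≤ 0 := mul_nonpos_of_nonneg_of_nonpos (by positivity) hcon
  linarith

/-- lower bound for the weight on an arc -/
theorem WW_lower {c : ℕ → ℝ} (hc : Good c) (j : ℕ) {θ : ℝ} (h : |sin (θ / 2)| < sj j) :
    c j * √(1 - sj j ^ 2) / (2 * π) ≤ WW c θ := by
  refine le_trans ?_ (WW_ge hc j θ)
  rw [mul_div_assoc]
  apply mul_le_mul_of_nonneg_left _ (hc.pos j).le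
  unfold wt
  have hs0 := sj_pos j
  have hs1 := sj_lt_one j
  have hsin : sin (θ / 2) ^ 2 < sj j ^ 2 := by
    rw [← sq_abs (sin (θ / 2))]
    have := abs_nonneg (sin (θ / 2))
    nlinarith
  have h1 : √(1 - sj j ^ 2) ≤ |cos (θ / 2)| := by
    rw [← Real.sqrt_sq_eq_abs]
    apply Real.sqrt_le_sqrt
    have := sin_sq_add_cos_sq (θ / 2)
    linarith
  have h2 : √(sj j ^ 2 - sin (θ / 2) ^ 2) ≤ 1 := by
    rw [Real.sqrt_le_one]
    nlinarith [sq_nonneg (sin (θ / 2))]
  have h3 : 0 < √(sj j ^ 2 - sin (θ / 2) ^ 2) := Real.sqrt_pos.mpr (by linarith)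
  apply div_le_div₀ (abs_nonneg _) h1 (by positivity)
  nlinarith [pi_pos]

theorem exists_j (n : ℕ) : ∃ j : ℕ, (π - 2 * arcsin (sj j)) * (2 * (4 * (n : ℝ) + 1)) ≤ π := by
  have h1 : Filter.Tendsto (fun j : ℕ => (π - 2 * arcsin (sj j)) * (2 * (4 * (n : ℝ) + 1)))
      Filter.atTop (nhds ((π - 2 * arcsin 1) * (2 * (4 * (n : ℝ) + 1)))) := by
    apply Filter.Tendsto.mul_const
    apply Filter.Tendsto.const_sub
    apply Filter.Tendsto.const_mul
    exact (continuous_arcsin.tendsto 1).comp sj_tendsto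
  rw [arcsin_one, show (π - 2 * (π / 2)) * (2 * (4 * (n : ℝ) + 1)) = 0 by ring] at h1
  exact ((h1.eventually (gt_mem_nhds pi_pos)).mono (fun j hj => le_of_lt hj)).exists

theorem W_mul_integrable {c : ℕ → ℝ} (hc : Good c) {f : ℝ → ℝ} (hf : Continuous f) :
    IntervalIntegrable (fun θ => f θ * WW c θ) volume (-π) π :=
  (W_integrable hc).continuousOn_mul hf.continuousOn

theorem int_lower {c : ℕ → ℝ} (hc : Good c) (n : ℕ) : ∃ δ : ℝ, 0 < δ ∧ ∀ a b : ℕ → ℝ,
    (∀ θ, 0 ≤ tp n a b θ) → δ * a 0 ≤ ∫ θ in (-π)..π, tp n a b θ * WW c θ := by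
  obtain ⟨j, hj⟩ := exists_j n
  set β : ℝ := 2 * arcsin (sj j) with hβ
  have hs0 := sj_pos j
  have hs1 := sj_lt_one j
  have hβ0 : 0 < β := by
    have := arcsin_pos.mpr hs0
    linarith
  have hβπ : β < π := by
    have := arcsin_lt_pi_div_two.mpr hs1
    linarith
  set d : ℝ := c j * √(1 - sj j ^ 2) / (2 * π) with hd
  have hd0 : 0 < d := by
    have h1 : 0 < 1 - sj j ^ 2 := by nlinarith
    have := Real.sqrt_pos.mpr h1
    have := hc.pos j
    positivity
  refine ⟨d * π, by positivity, ?_⟩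
  intro a b hpos
  have ha0 := a0_nonneg hpos
  have hint := W_mul_integrable hc (tp_cont n a b)
  have hc1 : IntervalIntegrable (fun θ => tp n a b θ * WW c θ) volume (-π) (-β) :=
    hint.mono_set (by rw [Set.uIcc_of_le (by linarith), Set.uIcc_of_le (by linarith)]; exact Set.Icc_subset_Icc le_rfl (by linarith))
  have hc2 : IntervalIntegrable (fun θ => tp n a b θ * WW c θ) volume (-β) β :=
    hint.mono_set (by rw [Set.uIcc_of_le (by linarith), Set.uIcc_of_le (by linarith)]; exact Set.Icc_subset_Icc (by linarith) (by linarith))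
  have hc3 : IntervalIntegrable (fun θ => tp n a b θ * WW c θ) volume β π :=
    hint.mono_set (by rw [Set.uIcc_of_le (by linarith), Set.uIcc_of_le (by linarith)]; exact Set.Icc_subset_Icc (by linarith) le_rfl)
  have hsplit : ∫ θ in (-π)..π, tp n a b θ * WW c θ = (∫ θ in (-π)..(-β), tp n a b θ * WW c θ) +
      (∫ θ in (-β)..β, tp n a b θ * WW c θ) + ∫ θ in β..π, tp n a b θ * WW c θ := by
    rw [intervalIntegral.integral_add_adjacent_intervals hc1 hc2,
      intervalIntegral.integral_add_adjacent_intervals (hc1.trans hc2) hc3]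
  have hn1 : 0 ≤ ∫ θ in (-π)..(-β), tp n a b θ * WW c θ :=
    intervalIntegral.integral_nonneg (by linarith) (fun θ _ => mul_nonneg (hpos θ) (WW_nonneg hc θ))
  have hn3 : 0 ≤ ∫ θ in β..π, tp n a b θ * WW c θ :=
    intervalIntegral.integral_nonneg (by linarith) (fun θ _ => mul_nonneg (hpos θ) (WW_nonneg hc θ))
  have hn2 : d * ∫ θ in (-β)..β, tp n a b θ ≤ ∫ θ in (-β)..β, tp n a b θ * WW c θ := by
    rw [← intervalIntegral.integral_const_mul]
    apply intervalIntegral.integral_mono_on_of_le_Ioo (by linarith)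
    · exact ((tp_cont n a b).intervalIntegrable _ _).const_mul _
    · exact hc2
    · intro θ hθ
      rw [mul_comm]
      apply mul_le_mul_of_nonneg_left _ (hpos θ)
      apply WW_lower hc j
      have h1 : θ / 2 < arcsin (sj j) := by linarith [hθ.2]
      have h2 : -arcsin (sj j) < θ / 2 := by linarith [hθ.1]
      have h3 : sin (arcsin (sj j)) = sj j := sin_arcsin (by linarith) hs1.le
      have h4 := arcsin_le_pi_div_two (sj j)
      rw [abs_lt]
      constructor
      · rw [← h3, ← sin_neg]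
        exact sin_lt_sin_of_lt_of_le_pi_div_two (by linarith) (by linarith) h2
      · conv_rhs => rw [← h3]
        exact sin_lt_sin_of_lt_of_le_pi_div_two (by linarith) h4 h1
  have hp1 : ∫ θ in (-π)..(-β), tp n a b θ ≤ (π - β) * ((4 * n + 1) * a 0) := by
    have := intervalIntegral.integral_mono_on (a := -π) (b := -β) (by linarith)
      ((tp_cont n a b).intervalIntegrable _ _)
      (continuous_const.intervalIntegrable (μ := volume) _ _ : IntervalIntegrable (fun _ => (4 * (n : ℝ) + 1) * a 0) volume _ _) (fun θ _ => tp_le hpos θ)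
    rw [intervalIntegral.integral_const, smul_eq_mul] at this
    linarith
  have hp3 : ∫ θ in β..π, tp n a b θ ≤ (π - β) * ((4 * n + 1) * a 0) := by
    have := intervalIntegral.integral_mono_on (a := β) (b := π) (by linarith)
      ((tp_cont n a b).intervalIntegrable _ _)
      (continuous_const.intervalIntegrable (μ := volume) _ _ : IntervalIntegrable (fun _ => (4 * (n : ℝ) + 1) * a 0) volume _ _) (fun θ _ => tp_le hpos θ)
    rw [intervalIntegral.integral_const, smul_eq_mul] at this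
    linarith
  have hsplit2 : ∫ θ in (-π)..π, tp n a b θ = (∫ θ in (-π)..(-β), tp n a b θ) +
      (∫ θ in (-β)..β, tp n a b θ) + ∫ θ in β..π, tp n a b θ := by
    have hh : ∀ x y : ℝ, IntervalIntegrable (tp n a b) volume x y :=
      fun x y => (tp_cont n a b).intervalIntegrable _ _
    rw [intervalIntegral.integral_add_adjacent_intervals (hh _ _) (hh _ _),
      intervalIntegral.integral_add_adjacent_intervals (hh _ _) (hh _ _)]
  rw [tp_int] at hsplit2
  have hmid : π * a 0 ≤ ∫ θ in (-β)..β, tp n a b θ := by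
    have h1 : (π - β) * (2 * (4 * (n : ℝ) + 1)) * a 0 ≤ π * a 0 :=
      mul_le_mul_of_nonneg_right hj ha0
    nlinarith
  have hfin : d * (π * a 0) ≤ d * ∫ θ in (-β)..β, tp n a b θ :=
    mul_le_mul_of_nonneg_left hmid hd0.le
  rw [hsplit]
  linarith

theorem kane_bdd {c : ℕ → ℝ} (hc : Good c) (n : ℕ) : BddAbove (KaneRatios (WW c) n) := by
  obtain ⟨δ, hδ, h⟩ := int_lower hc n
  refine ⟨2 * π * (4 * (n : ℝ) ^ 2) / δ, ?_⟩
  rintro r ⟨p, ⟨⟨a, b, hab⟩, hpos, hne⟩, rfl⟩
  have hp : p = tp n a b := funext hab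
  subst hp
  have ha0 := a0_pos hpos hne
  have h1 := h a b hpos
  have h2 : ∫ x in (-π)..π, |deriv (tp n a b) x| ≤ 2 * π * (4 * (n : ℝ) ^ 2 * a 0) := by
    have h3 := intervalIntegral.norm_integral_le_of_norm_le_const (a := -π) (b := π)
      (f := fun x => |deriv (tp n a b) x|) (C := 4 * (n : ℝ) ^ 2 * a 0) (fun x _ => by
        rw [Real.norm_eq_abs, abs_abs]; exact tp_deriv_le hpos x)
    rw [Real.norm_eq_abs, show π - -π = 2 * π by ring, abs_of_pos (by positivity : (0:ℝ) < 2 * π)] at h3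
    refine (le_abs_self _).trans (h3.trans (le_of_eq ?_))
    ring
  have h4 : 0 < δ * a 0 := by positivity
  calc (∫ x in (-π)..π, |deriv (tp n a b) x|) / (∫ x in (-π)..π, tp n a b x * WW c x)
      ≤ (2 * π * (4 * (n : ℝ) ^ 2 * a 0)) / (δ * a 0) := by
        apply div_le_div₀ (by positivity) h2 h4 h1
    _ = 2 * π * (4 * (n : ℝ) ^ 2) / δ := by field_simp

end Pool.Agent.R483.KB
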