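import Pool.Agent.R483.KB.Disc

/-!
Solving for small cosine moments by the contraction principle.
-/

namespace Pool.Agent.R483.KB

open Real Finset

/-- average of the remainder -/
noncomputable def RR (n M : ℕ) (g : Fin n → ℝ) (k : ℕ) : ℝ :=
  (∑ t ∈ range M, rem (k : ℝ) (ph M t) (GG g (ph M t))) / M

noncomputable def Psi (n M : ℕ) (F : ℕ → ℝ) (g : Fin n → ℝ) : Fin n → ℝ :=
  fun k => 2 / (((k : ℕ) + 1 : ℕ) : ℝ) * (RR n M g ((k : ℕ) + 1) - F ((k : ℕ) + 1))

theorem Psi_lip {n M : ℕ} (hn : 0 < n) (hM : 0 < M) (F : ℕ → ℝ) {g g' : Fin n → ℝ}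
    (hg : ‖g‖ ≤ 1 / (4 * (n : ℝ) ^ 3)) (hg' : ‖g'‖ ≤ 1 / (4 * (n : ℝ) ^ 3)) :
    ‖Psi n M F g - Psi n M F g'‖ ≤ (1 / 2) * ‖g - g'‖ := by
  have hn' : (0 : ℝ) < n := by exact_mod_cast hn
  have hM' : (0 : ℝ) < M := by exact_mod_cast hM
  rw [pi_norm_le_iff_of_nonneg (by positivity)]
  intro k
  rw [Pi.sub_apply, Real.norm_eq_abs]
  unfold Psi
  set K : ℕ := (k : ℕ) + 1 with hK
  have hKn : (K : ℝ) ≤ n := by
    have := k.2
    exact_mod_cast (by omega : K ≤ n)
  have hK0 : (0 : ℝ) < K := by exact_mod_cast (by omega : 0 < K)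
  have h1 : 2 / (K : ℝ) * (RR n M g K - F K) - 2 / (K : ℝ) * (RR n M g' K - F K) =
      2 / (K : ℝ) * (RR n M g K - RR n M g' K) := by ring
  rw [h1, abs_mul, abs_of_pos (by positivity)]
  have hρ : ∀ g : Fin n → ℝ, ‖g‖ ≤ 1 / (4 * (n : ℝ) ^ 3) → ∀ x, |GG g x| ≤ 1 / (4 * (n : ℝ) ^ 2) := by
    intro g hg x
    refine (GG_le g x).trans ?_
    calc (n : ℝ) * ‖g‖ ≤ n * (1 / (4 * (n : ℝ) ^ 3)) := by gcongr
      _ = 1 / (4 * (n : ℝ) ^ 2) := by field_simp
  have h2 : |RR n M g K - RR n M g' K| ≤ (K : ℝ) ^ 2 * (1 / (4 * (n : ℝ) ^ 2)) * (n * ‖g - g'‖) := by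
    unfold RR
    rw [← sub_div, ← Finset.sum_sub_distrib, abs_div, abs_of_pos hM', div_le_iff₀ hM']
    refine (Finset.abs_sum_le_sum_abs _ _).trans ?_
    have : ∀ t ∈ range M, |rem (K : ℝ) (ph M t) (GG g (ph M t)) - rem (K : ℝ) (ph M t) (GG g' (ph M t))| ≤
        (K : ℝ) ^ 2 * (1 / (4 * (n : ℝ) ^ 2)) * (n * ‖g - g'‖) := by
      intro t _
      refine (rem_lip hK0.le (hρ g hg _) (hρ g' hg' _)).trans ?_
      exact mul_le_mul_of_nonneg_left (GG_sub_le g g' _) (by positivity)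
    refine (Finset.sum_le_sum this).trans ?_
    rw [Finset.sum_const, Finset.card_range, nsmul_eq_mul]
    linarith
  calc 2 / (K : ℝ) * |RR n M g K - RR n M g' K|
      ≤ 2 / (K : ℝ) * ((K : ℝ) ^ 2 * (1 / (4 * (n : ℝ) ^ 2)) * (n * ‖g - g'‖)) := by gcongr
    _ = (K / n) * (1 / 2 * ‖g - g'‖) := by field_simp; ring
    _ ≤ 1 * (1 / 2 * ‖g - g'‖) := by
        gcongr
        rw [div_le_one hn']; exact hKn
    _ = _ := one_mul _

theorem RR_zero {n M : ℕ} (k : ℕ) : RR n M 0 k = 0 := by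
  unfold RR rem
  simp [GG_zero]

/-- The perturbation lemma. -/
theorem perturb {n M : ℕ} (hn : 0 < n) (hM : 2 * n < M) (F : ℕ → ℝ)
    (hF : ∀ k, 0 < k → k ≤ n → |F k| ≤ 1 / (16 * (n : ℝ) ^ 3)) :
    ∃ g : Fin n → ℝ, ∀ k, 0 < k → k ≤ n →
      ∑ t ∈ range M, cos ((k : ℝ) * (ph M t + GG g (ph M t))) = M * F k := by
  have hn' : (0 : ℝ) < n := by exact_mod_cast hn
  have hM' : (0 : ℝ) < M := by exact_mod_cast (by omega : 0 < M)
  set r : ℝ := 1 / (4 * (n : ℝ) ^ 3) with hr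
  have hr0 : 0 < r := by positivity
  have hPsi0 : ‖Psi n M F 0‖ ≤ r / 2 := by
    rw [pi_norm_le_iff_of_nonneg (by positivity)]
    intro k
    unfold Psi
    rw [RR_zero, zero_sub, Real.norm_eq_abs, abs_mul, abs_neg]
    have hk0 : (0 : ℝ) < (((k : ℕ) + 1 : ℕ) : ℝ) := by positivity
    have h1 : (1 : ℝ) ≤ (((k : ℕ) + 1 : ℕ) : ℝ) := by push_cast; linarith [Nat.cast_nonneg (α := ℝ) (k : ℕ)]
    rw [abs_of_pos (by positivity)]
    calc 2 / (((k : ℕ) + 1 : ℕ) : ℝ) * |F ((k : ℕ) + 1)| ≤ 2 * (1 / (16 * (n : ℝ) ^ 3)) := by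
          apply mul_le_mul _ (hF _ (by omega) (by have := k.2; omega)) (abs_nonneg _) (by norm_num)
          rw [div_le_iff₀ hk0]; linarith
      _ = r / 2 := by rw [hr]; field_simp; norm_num
  have hmaps : Set.MapsTo (Psi n M F) (Metric.closedBall 0 r) (Metric.closedBall 0 r) := by
    intro g hg
    rw [mem_closedBall_zero_iff] at hg ⊢
    have h1 := Psi_lip hn (by omega : 0 < M) F (g := g) (g' := 0) hg (by simpa using hr0.le)
    rw [sub_zero] at h1
    calc ‖Psi n M F g‖ = ‖(Psi n M F g - Psi n M F 0) + Psi n M F 0‖ := by rw [sub_add_cancel]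
      _ ≤ ‖Psi n M F g - Psi n M F 0‖ + ‖Psi n M F 0‖ := norm_add_le _ _
      _ ≤ 1 / 2 * r + r / 2 := by gcongr; exact h1.trans (by gcongr)
      _ = r := by ring
  have hcontr : ContractingWith (1/2 : NNReal) (hmaps.restrict (Psi n M F) (Metric.closedBall 0 r) (Metric.closedBall 0 r)) := by
    refine ⟨by norm_num, ?_⟩
    apply LipschitzWith.of_dist_le_mul
    rintro ⟨g, hg⟩ ⟨g', hg'⟩
    rw [mem_closedBall_zero_iff] at hg hg'
    rw [Subtype.dist_eq, Subtype.dist_eq, Set.MapsTo.val_restrict_apply, Set.MapsTo.val_restrict_apply,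
      dist_eq_norm, dist_eq_norm]
    have := Psi_lip hn (by omega : 0 < M) F hg hg'
    simpa using this
  obtain ⟨g, _, hfix, _⟩ := hcontr.exists_fixedPoint' (Metric.isClosed_closedBall.isComplete) hmaps
    (x := 0) (by simpa using hr0.le) (edist_ne_top _ _)
  refine ⟨g, ?_⟩
  intro k hk hkn
  have h1 : Psi n M F g ⟨k - 1, by omega⟩ = g ⟨k - 1, by omega⟩ := congrFun hfix _
  unfold Psi at h1
  simp only [show k - 1 + 1 = k by omega] at h1
  have hk' : (0 : ℝ) < k := by exact_mod_cast hk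
  -- expand RR
  have h2 : RR n M g k = (∑ t ∈ range M, cos ((k : ℝ) * (ph M t + GG g (ph M t)))) / M +
      k / 2 * g ⟨k - 1, by omega⟩ := by
    unfold RR rem
    rw [Finset.sum_add_distrib, Finset.sum_sub_distrib, sum_cos hk (by omega), sub_zero, add_div]
    congr 1
    have h3 : ∑ t ∈ range M, (k : ℝ) * sin ((k : ℝ) * ph M t) * GG g (ph M t) =
        k * (g ⟨k - 1, by omega⟩ * (M / 2)) := by
      unfold GG
      have h4 : ∀ t ∈ range M, (k : ℝ) * sin ((k : ℝ) * ph M t) *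
          ∑ l : Fin n, g l * sin (((l : ℕ) + 1 : ℕ) * ph M t) =
          ∑ l : Fin n, k * (g l * (sin ((k : ℝ) * ph M t) * sin ((((l : ℕ) + 1 : ℕ) : ℝ) * ph M t))) := by
        intro t _
        rw [Finset.mul_sum]
        apply Finset.sum_congr rfl
        intro l _
        ring
      rw [Finset.sum_congr rfl h4, Finset.sum_comm]
      have h5 : ∀ l : Fin n, ∑ t ∈ range M, k * (g l * (sin ((k : ℝ) * ph M t) *
          sin ((((l : ℕ) + 1 : ℕ) : ℝ) * ph M t))) =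
          if l = ⟨k - 1, by omega⟩ then k * (g ⟨k - 1, by omega⟩ * (M / 2)) else 0 := by
        intro l
        rw [← Finset.mul_sum, ← Finset.mul_sum, sum_sin_sin hk (by omega) (by have := l.2; omega)]
        by_cases h : k = (l : ℕ) + 1
        · rw [if_pos h]
          have : l = ⟨k - 1, by omega⟩ := by
            apply Fin.ext; simp only; omega
          rw [if_pos this]
          rw [this]
        · rw [if_neg h, if_neg, mul_zero, mul_zero]
          intro h6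
          apply h
          have := congrArg Fin.val h6
          simp only at this
          omega
      rw [Finset.sum_congr rfl (fun l _ => h5 l), Finset.sum_ite_eq']
      simp
    rw [h3]
    field_simp
  rw [h2] at h1
  field_simp at h1 ⊢
  linarith

end Pool.Agent.R483.KB
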