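import Mathlib

/-!
Definitions for MP_8220a0_an: weights, trigonometric polynomials, Chebyshev-type quadratures and
Kane's quantity.
-/

namespace Pool.Agent.R483.KB

open Real Finset MeasureTheory

/-- A `2π`-periodic weight function. -/
structure IsWeight (W : ℝ → ℝ) : Prop where
  meas : Measurable W
  nonneg : ∀ θ, 0 ≤ W θ
  periodic : Function.Periodic W (2 * π)
  integrable : IntervalIntegrable W volume (-π) π
  pos : 0 < ∫ θ in (-π)..π, W θ

/-- The real trigonometric polynomials of degree at most `n`. -/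
def Trig (n : ℕ) : Set (ℝ → ℝ) :=
  {p | ∃ a b : ℕ → ℝ, ∀ θ, p θ = ∑ k ∈ range (n + 1), (a k * cos (k * θ) + b k * sin (k * θ))}

/-- The elements of `Trig n` that are nonnegative and not identically zero. -/
def TrigPos (n : ℕ) : Set (ℝ → ℝ) :=
  {p | p ∈ Trig n ∧ (∀ θ, 0 ≤ p θ) ∧ ∃ θ, p θ ≠ 0}

/-- There is a Chebyshev-type trigonometric quadrature of degree `n` for `W` with exactly `N`
nodes. -/
def Quad (W : ℝ → ℝ) (n N : ℕ) : Prop :=
  ∃ θ : Fin N → ℝ, Monotone θ ∧ ∃ lam : ℝ, ∀ p ∈ Trig n,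
    ∫ x in (-π)..π, p x * W x = lam * ∑ i, p (θ i)

/-- `N̄_W(n)`: the least `M` such that a quadrature with exactly `N` nodes exists for each `N ≥ M`.
-/
noncomputable def Nbar (W : ℝ → ℝ) (n : ℕ) : ℕ := sInf {M | ∀ N ≥ M, Quad W n N}

/-- The ratios in Kane's supremum. -/
def KaneRatios (W : ℝ → ℝ) (n : ℕ) : Set ℝ :=
  {r | ∃ p ∈ TrigPos n,
    r = (∫ x in (-π)..π, |deriv p x|) / (∫ x in (-π)..π, p x * W x)}

/-- Kane's quantity `K_W(n)`. -/
noncomputable def Kane (W : ℝ → ℝ) (n : ℕ) : ℕ :=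
  ⌊(∫ x in (-π)..π, W x) / 2 * sSup (KaneRatios W n)⌋₊ + 1

end Pool.Agent.R483.KB
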