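import Mathlib

/-!
Equally spaced points, discrete orthogonality and the perturbation lemma (small cosine moments).
-/

namespace Pool.Agent.R483.KB

open Real Finset

/-- the equally spaced points `(2t+1-M)π/M` -/
noncomputable def ph (M t : ℕ) : ℝ := (2 * (t : ℝ) + 1 - (M : ℝ)) * π / (M : ℝ)

theorem sum_cos {M m : ℕ} (hm : 0 < m) (hM : m < M) :
    ∑ t ∈ range M, cos ((m : ℝ) * ph M t) = 0 := by
  have hM0 : (M : ℝ) ≠ 0 := by
    have : 0 < M := by omega
    positivity
  have hs : sin ((m : ℝ) * π / M) ≠ 0 := by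
    apply ne_of_gt
    apply sin_pos_of_pos_of_lt_pi
    · have : (0 : ℝ) < m := by exact_mod_cast hm
      have : (0 : ℝ) < M := by exact_mod_cast (by omega : 0 < M)
      positivity
    · rw [div_lt_iff₀ (by exact_mod_cast (by omega : 0 < M))]
      have : (m : ℝ) < M := by exact_mod_cast hM
      nlinarith [pi_pos]
  let g : ℕ → ℝ := fun t => sin ((m : ℝ) * (2 * (t : ℝ) - M) * π / M)
  have h1 : ∀ t : ℕ, 2 * sin ((m : ℝ) * π / M) * cos ((m : ℝ) * ph M t) = g (t + 1) - g t := by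
    intro t
    have e1 : (m : ℝ) * (2 * ((t + 1 : ℕ) : ℝ) - M) * π / M = (m : ℝ) * ph M t + (m : ℝ) * π / M := by
      unfold ph; push_cast; field_simp; ring
    have e2 : (m : ℝ) * (2 * (t : ℝ) - M) * π / M = (m : ℝ) * ph M t - (m : ℝ) * π / M := by
      unfold ph; field_simp; ring
    simp only [g]
    rw [e1, e2, sin_add, sin_sub]
    ring
  have h2 : 2 * sin ((m : ℝ) * π / M) * ∑ t ∈ range M, cos ((m : ℝ) * ph M t) = 0 := by
    rw [Finset.mul_sum, Finset.sum_congr rfl (fun t _ => h1 t), Finset.sum_range_sub]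
    simp only [g]
    have e1 : (m : ℝ) * (2 * (M : ℝ) - M) * π / M = (m : ℝ) * π := by field_simp; ring
    have e2 : (m : ℝ) * (2 * ((0 : ℕ) : ℝ) - M) * π / M = -((m : ℝ) * π) := by
      push_cast; field_simp; ring
    rw [e1, e2, sin_neg, sin_nat_mul_pi]
    ring
  rcases mul_eq_zero.mp h2 with h | h
  · exfalso
    rcases mul_eq_zero.mp h with h | h
    · norm_num at h
    · exact hs h
  · exact h

theorem ph_reflect {M t : ℕ} (ht : t < M) : ph M (M - 1 - t) = - ph M t := by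
  unfold ph
  have : ((M - 1 - t : ℕ) : ℝ) = (M : ℝ) - 1 - t := by
    rw [Nat.cast_sub (by omega), Nat.cast_sub (by omega)]; norm_num
  rw [this]
  have hM0 : (M : ℝ) ≠ 0 := by
    have : 0 < M := by omega
    positivity
  field_simp
  ring

theorem sum_odd {M : ℕ} {f : ℝ → ℝ} (hf : ∀ x, f (-x) = - f x) :
    ∑ t ∈ range M, f (ph M t) = 0 := by
  have h1 := Finset.sum_range_reflect (fun t => f (ph M t)) M
  have h2 : ∑ t ∈ range M, f (ph M (M - 1 - t)) = - ∑ t ∈ range M, f (ph M t) := by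
    rw [← Finset.sum_neg_distrib]
    apply Finset.sum_congr rfl
    intro t ht
    rw [ph_reflect (Finset.mem_range.mp ht), hf]
  linarith

theorem sum_sin_sin {M k l : ℕ} (hk : 0 < k) (hl : 0 < l) (hM : k + l < M) :
    ∑ t ∈ range M, sin ((k : ℝ) * ph M t) * sin ((l : ℝ) * ph M t) =
      if k = l then (M : ℝ) / 2 else 0 := by
  have h1 : ∀ t : ℕ, sin ((k : ℝ) * ph M t) * sin ((l : ℝ) * ph M t) =
      (cos (((k : ℝ) - l) * ph M t) - cos (((k + l : ℕ) : ℝ) * ph M t)) / 2 := by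
    intro t
    push_cast
    rw [sub_mul, add_mul, cos_add, cos_sub]
    ring
  rw [Finset.sum_congr rfl (fun t _ => h1 t), ← Finset.sum_div, Finset.sum_sub_distrib,
    sum_cos (by omega) hM]
  by_cases h : k = l
  · subst h
    simp
  · rw [if_neg h]
    have : ∑ t ∈ range M, cos (((k : ℝ) - l) * ph M t) = 0 := by
      rcases Nat.lt_or_gt_of_ne h with h1 | h1
      · rw [← sum_cos (M := M) (m := l - k) (by omega) (by omega)]
        apply Finset.sum_congr rfl
        intro t _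
        rw [Nat.cast_sub h1.le, ← cos_neg]
        congr 1; ring
      · rw [← sum_cos (M := M) (m := k - l) (by omega) (by omega)]
        apply Finset.sum_congr rfl
        intro t _
        rw [Nat.cast_sub h1.le]
    rw [this]
    simp

/-- an odd sine polynomial -/
noncomputable def GG {n : ℕ} (g : Fin n → ℝ) (x : ℝ) : ℝ :=
  ∑ l : Fin n, g l * sin (((l : ℕ) + 1 : ℕ) * x)

theorem GG_odd {n : ℕ} (g : Fin n → ℝ) (x : ℝ) : GG g (-x) = - GG g x := by
  unfold GG
  rw [← Finset.sum_neg_distrib]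
  apply Finset.sum_congr rfl
  intro l _
  rw [mul_neg, sin_neg]; ring

theorem GG_sub_le {n : ℕ} (g g' : Fin n → ℝ) (x : ℝ) : |GG g x - GG g' x| ≤ n * ‖g - g'‖ := by
  unfold GG
  rw [← Finset.sum_sub_distrib]
  refine (Finset.abs_sum_le_sum_abs _ _).trans ?_
  have : ∀ l : Fin n, |g l * sin (((l : ℕ) + 1 : ℕ) * x) - g' l * sin (((l : ℕ) + 1 : ℕ) * x)| ≤
      ‖g - g'‖ := by
    intro l
    rw [← sub_mul, abs_mul]
    have h1 : |g l - g' l| ≤ ‖g - g'‖ := by
      have := norm_le_pi_norm (g - g') l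
      simpa using this
    have h2 := abs_sin_le_one (((l : ℕ) + 1 : ℕ) * x)
    calc _ ≤ ‖g - g'‖ * 1 := mul_le_mul h1 h2 (abs_nonneg _) (norm_nonneg _)
      _ = _ := mul_one _
  refine (Finset.sum_le_sum (fun l _ => this l)).trans ?_
  simp

theorem GG_zero {n : ℕ} (x : ℝ) : GG (0 : Fin n → ℝ) x = 0 := by
  unfold GG; simp

theorem GG_le {n : ℕ} (g : Fin n → ℝ) (x : ℝ) : |GG g x| ≤ n * ‖g‖ := by
  have := GG_sub_le g 0 x
  rw [GG_zero, sub_zero, sub_zero] at this
  exact this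

/-- second order remainder -/
noncomputable def rem (K φ x : ℝ) : ℝ := cos (K * (φ + x)) - cos (K * φ) + K * sin (K * φ) * x

theorem rem_lip {K φ ρ x y : ℝ} (hK : 0 ≤ K) (hx : |x| ≤ ρ) (hy : |y| ≤ ρ) :
    |rem K φ x - rem K φ y| ≤ K ^ 2 * ρ * |x - y| := by
  have hder : ∀ z ∈ Set.Icc (-ρ) ρ, HasDerivWithinAt (rem K φ)
      (-(sin (K * (φ + z)) * K) + K * sin (K * φ)) (Set.Icc (-ρ) ρ) z := by
    intro z _
    apply HasDerivAt.hasDerivWithinAt
    unfold rem
    have h1 : HasDerivAt (fun x : ℝ => K * (φ + x)) K z := by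
      have := ((hasDerivAt_id z).const_add φ).const_mul K
      simpa using this
    have h2 := h1.cos
    have h3 : HasDerivAt (fun x : ℝ => K * sin (K * φ) * x) (K * sin (K * φ)) z := by
      have := (hasDerivAt_id z).const_mul (K * sin (K * φ))
      simpa using this
    have h4 := (h2.sub_const (cos (K * φ))).add h3
    refine h4.congr_deriv ?_
    ring
  have hbound : ∀ z ∈ Set.Icc (-ρ) ρ, ‖-(sin (K * (φ + z)) * K) + K * sin (K * φ)‖ ≤ K ^ 2 * ρ := by
    intro z hz
    have h1 : -(sin (K * (φ + z)) * K) + K * sin (K * φ) =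
        K * (sin (K * φ) - sin (K * (φ + z))) := by ring
    rw [h1, norm_mul, Real.norm_eq_abs, Real.norm_eq_abs, abs_of_nonneg hK]
    have h2 : |sin (K * φ) - sin (K * (φ + z))| ≤ K * |z| := by
      have := Real.abs_sin_sub_sin_le (K * φ) (K * (φ + z))
      have h3 : K * φ - K * (φ + z) = -(K * z) := by ring
      rw [h3, abs_neg, abs_mul, abs_of_nonneg hK] at this
      exact this
    have h3 : |z| ≤ ρ := abs_le.mpr ⟨by linarith [hz.1], hz.2⟩
    calc K * |sin (K * φ) - sin (K * (φ + z))| ≤ K * (K * ρ) := by gcongr; exact h2.trans (by gcongr)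
      _ = K ^ 2 * ρ := by ring
  have := (convex_Icc (-ρ) ρ).norm_image_sub_le_of_norm_hasDerivWithin_le hder hbound
    (abs_le.mp hy |> fun h => ⟨h.1, h.2⟩) (abs_le.mp hx |> fun h => ⟨h.1, h.2⟩)
  rw [Real.norm_eq_abs, Real.norm_eq_abs] at this
  exact this

end Pool.Agent.R483.KB
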