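import Pool.Agent.R483.KB.Rep
import Pool.Agent.R483.KB.Coef

/-!
Lower bound for Kane's quantity and the choice of the coefficients.
-/

namespace Pool.Agent.R483.KB

open Real Finset MeasureTheory Polynomial Polynomial.Chebyshev Filter Topology

theorem poly_trig {n : ℕ} : ∀ P : ℝ[X], P.natDegree ≤ n →
    ∃ a : ℕ → ℝ, ∀ θ : ℝ, P.eval (cos θ) = ∑ k ∈ range (n + 1), a k * cos (k * θ) := by
  apply poly_ind X natDegree_X
  · rintro P Q ⟨a, ha⟩ ⟨b, hb⟩
    refine ⟨fun k => a k + b k, fun θ => ?_⟩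
    rw [eval_add, ha, hb, ← Finset.sum_add_distrib]
    apply Finset.sum_congr rfl
    intro k _; ring
  · rintro c P ⟨a, ha⟩
    refine ⟨fun k => c * a k, fun θ => ?_⟩
    rw [eval_mul, eval_C, ha, Finset.mul_sum]
    apply Finset.sum_congr rfl
    intro k _; ring
  · intro l hl
    refine ⟨fun k => if k = l then 1 else 0, fun θ => ?_⟩
    rw [comp_X, T_real_cos]
    simp only [ite_mul, one_mul, zero_mul]
    rw [Finset.sum_ite_eq', if_pos (by rw [Finset.mem_range]; omega)]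
    norm_num

noncomputable def P0 (n : ℕ) : ℝ[X] := (Polynomial.C (1 / 2) * (1 - X)) ^ n

theorem P0_eval (n : ℕ) (x : ℝ) : (P0 n).eval x = ((1 - x) / 2) ^ n := by
  unfold P0
  rw [eval_pow, eval_mul, eval_C, eval_sub, eval_one, eval_X]
  congr 1; ring

theorem P0_deg (n : ℕ) : (P0 n).natDegree ≤ n := by
  unfold P0
  refine natDegree_pow_le.trans ?_
  have : (Polynomial.C (1 / 2 : ℝ) * (1 - X)).natDegree ≤ 1 := by
    refine (natDegree_C_mul_le _ _).trans ?_
    refine (natDegree_sub_le _ _).trans ?_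
    simp
  calc n * _ ≤ n * 1 := Nat.mul_le_mul_left _ this
    _ = n := mul_one _

theorem MM_P0_le {s : ℝ} (n : ℕ) : |MM s (P0 n)| ≤ (s ^ 2) ^ n := by
  unfold MM
  apply Mean_le
  intro φ
  rw [eval_comp, eval_Lin, P0_eval, abs_pow]
  apply pow_le_pow_left₀ (abs_nonneg _)
  have h1 : (1 - (1 - s ^ 2 + s ^ 2 * cos φ)) / 2 = s ^ 2 * ((1 - cos φ) / 2) := by ring
  rw [h1, abs_mul, abs_of_nonneg (sq_nonneg s), abs_of_nonneg (by linarith [cos_le_one φ])]
  calc s ^ 2 * ((1 - cos φ) / 2) ≤ s ^ 2 * 1 := by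
        apply mul_le_mul_of_nonneg_left _ (sq_nonneg s)
        linarith [neg_one_le_cos φ]
    _ = s ^ 2 := mul_one _

theorem int_P0_le {c : ℕ → ℝ} (hc : Good c) {j n : ℕ}
    (hτ : ∑' i, c (j + 1 + i) ≤ (sj j ^ 2) ^ n) :
    ∫ x in (-π)..π, (P0 n).eval (cos x) * WW c x ≤ 3 * (sj j ^ 2) ^ n := by
  have h1 := hasSum_W hc (f := fun x => (P0 n).eval (cos x)) (cont_eval_cos (P0 n))
  simp only [TM_poly (sj_pos _).le (sj_lt_one _).le] at h1
  rw [← h1.tsum_eq, ← h1.summable.sum_add_tsum_nat_add (j + 1)]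
  have hsc : Summable (fun i => c (j + 1 + i)) := by
    have := (summable_nat_add_iff (j + 1)).mpr hc.summable
    simpa [add_comm] using this
  have h2 : ∑ i ∈ range (j + 1), c i * MM (sj i) (P0 n) ≤ 2 * (sj j ^ 2) ^ n := by
    calc ∑ i ∈ range (j + 1), c i * MM (sj i) (P0 n) ≤ ∑ i ∈ range (j + 1), c i * (sj j ^ 2) ^ n := by
          apply Finset.sum_le_sum
          intro i hi
          rw [Finset.mem_range] at hi
          apply mul_le_mul_of_nonneg_left _ (hc.pos i).le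
          refine (le_abs_self _).trans (MM_P0_le n |>.trans ?_)
          apply pow_le_pow_left₀ (sq_nonneg _)
          exact pow_le_pow_left₀ (sj_pos i).le (sj_mono (by omega)) 2
      _ = (∑ i ∈ range (j + 1), c i) * (sj j ^ 2) ^ n := by rw [Finset.sum_mul]
      _ ≤ 2 * (sj j ^ 2) ^ n := by
          apply mul_le_mul_of_nonneg_right _ (by positivity)
          exact (hc.summable.sum_le_tsum _ (fun i _ => (hc.pos i).le)).trans hc.tsum_le_two
  have h3 : ∑' i, c (i + (j + 1)) * MM (sj (i + (j + 1))) (P0 n) ≤ (sj j ^ 2) ^ n := by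
    refine le_trans ?_ hτ
    have h4 : ∀ i, c (i + (j + 1)) * MM (sj (i + (j + 1))) (P0 n) ≤ c (j + 1 + i) := by
      intro i
      rw [add_comm i (j + 1)]
      calc c (j + 1 + i) * MM (sj (j + 1 + i)) (P0 n) ≤ c (j + 1 + i) * 1 := by
            apply mul_le_mul_of_nonneg_left _ (hc.pos _).le
            refine (le_abs_self _).trans (MM_P0_le n |>.trans ?_)
            apply pow_le_one₀ (sq_nonneg _)
            have h5 := sj_pos (j + 1 + i)
            have h6 := sj_lt_one (j + 1 + i)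
            nlinarith
        _ = _ := mul_one _
    exact ((summable_nat_add_iff (j + 1)).mpr h1.summable).tsum_le_tsum h4 hsc
  linarith

theorem kane_ge {c : ℕ → ℝ} (hc : Good c) {j n : ℕ} (hn : 0 < n)
    (hτ : ∑' i, c (j + 1 + i) ≤ (sj j ^ 2) ^ n) :
    1 / (6 * (sj j ^ 2) ^ n) ≤ (Kane (WW c) n : ℝ) := by
  set r := (sj j ^ 2) ^ n with hr
  have hr0 : 0 < r := by have := sj_pos j; positivity
  set p0 : ℝ → ℝ := fun x => (P0 n).eval (cos x) with hp0
  obtain ⟨a, ha⟩ := poly_trig (P0 n) (P0_deg n)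
  have hptp : p0 = tp n a (fun _ => 0) := by
    ext x
    simp only [hp0, ha, tp, zero_mul, add_zero]
  have hpos : ∀ θ, 0 ≤ p0 θ := by
    intro θ
    simp only [hp0, P0_eval]
    exact pow_nonneg (by linarith [cos_le_one θ]) _
  have hne : p0 π ≠ 0 := by
    simp only [hp0, P0_eval, cos_pi]
    norm_num
  have hmem : p0 ∈ TrigPos n := by
    refine ⟨⟨a, fun _ => 0, fun θ => ?_⟩, hpos, π, hne⟩
    rw [hptp]; rfl
  have hint_pos : 0 < ∫ x in (-π)..π, p0 x * WW c x := by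
    obtain ⟨δ, hδ, h⟩ := int_lower hc n
    rw [hptp]
    rw [hptp] at hpos hne
    have h1 := a0_pos hpos ⟨π, hne⟩
    have h2 := h _ _ hpos
    have h3 : 0 < δ * a 0 := by positivity
    linarith
  have hint_le : ∫ x in (-π)..π, p0 x * WW c x ≤ 3 * r := int_P0_le hc hτ
  have hder : 1 ≤ ∫ x in (-π)..π, |deriv p0 x| := by
    have hcd : Continuous (deriv p0) := by
      rw [hptp]
      have : deriv (tp n a fun _ => 0) = fun θ => ∑ k ∈ range (n + 1),
          (a k * (-sin (k * θ) * k) + (fun _ => (0 : ℝ)) k * (cos (k * θ) * k)) :=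
        funext fun θ => (tp_hasDeriv n a _ θ).deriv
      rw [this]
      fun_prop
    have hdiff : ∀ x, HasDerivAt p0 (deriv p0 x) x := by
      intro x
      rw [hptp]
      exact (tp_hasDeriv n a _ x).differentiableAt.hasDerivAt
    have h1 : ∫ x in (0 : ℝ)..π, deriv p0 x = p0 π - p0 0 :=
      intervalIntegral.integral_eq_sub_of_hasDerivAt (fun x _ => hdiff x) (hcd.intervalIntegrable _ _)
    have h2 : p0 π - p0 0 = 1 := by
      simp only [hp0, P0_eval, cos_pi, cos_zero]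
      rw [show ((1 : ℝ) - 1) / 2 = 0 by ring, zero_pow hn.ne']
      norm_num
    have h3 : |∫ x in (0 : ℝ)..π, deriv p0 x| ≤ ∫ x in (0 : ℝ)..π, |deriv p0 x| :=
      intervalIntegral.abs_integral_le_integral_abs pi_pos.le
    rw [h1, h2, abs_one] at h3
    have h4 : ∫ x in (-π)..π, |deriv p0 x| =
        (∫ x in (-π)..0, |deriv p0 x|) + ∫ x in (0 : ℝ)..π, |deriv p0 x| := by
      rw [intervalIntegral.integral_add_adjacent_intervals (hcd.abs.intervalIntegrable _ _)
        (hcd.abs.intervalIntegrable _ _)]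
    have h5 : 0 ≤ ∫ x in (-π)..0, |deriv p0 x| :=
      intervalIntegral.integral_nonneg (by linarith [pi_pos]) (fun x _ => abs_nonneg _)
    linarith
  have hratio : 1 / (3 * r) ≤ (∫ x in (-π)..π, |deriv p0 x|) / (∫ x in (-π)..π, p0 x * WW c x) :=
    div_le_div₀ (by linarith) hder hint_pos hint_le
  have hsup : (∫ x in (-π)..π, |deriv p0 x|) / (∫ x in (-π)..π, p0 x * WW c x) ≤
      sSup (KaneRatios (WW c) n) := le_csSup (kane_bdd hc n) ⟨p0, hmem, rfl⟩
  have hfl : (∫ x in (-π)..π, WW c x) / 2 * sSup (KaneRatios (WW c) n) < (Kane (WW c) n : ℝ) := by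
    unfold Kane
    push_cast
    exact Nat.lt_floor_add_one _
  have hC := hc.one_le_tsum
  rw [integral_W hc] at hfl
  have h6 : 1 / (3 * r) ≤ sSup (KaneRatios (WW c) n) := hratio.trans hsup
  have h7 : 1 / 2 * (1 / (3 * r)) ≤ (∑' j, c j) / 2 * sSup (KaneRatios (WW c) n) := by
    apply mul_le_mul (by linarith) h6 (by positivity) (by linarith)
  have h8 : 1 / (6 * r) = 1 / 2 * (1 / (3 * r)) := by field_simp; norm_num
  linarith

theorem exists_n (j : ℕ) {c : ℝ} (_hc : 0 < c) : ∃ n : ℕ, j ≤ n ∧ 0 < n ∧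
    (64 * ((j : ℝ) + 1) * (n : ℝ) ^ 3 / c + 1) * (6 * (sj j ^ 2) ^ n) ≤ 1 / ((j : ℝ) + 1) := by
  have hq : |sj j ^ 2| < 1 := by
    rw [abs_of_nonneg (sq_nonneg _)]
    have h1 := sj_pos j
    have h2 := sj_lt_one j
    nlinarith
  have h1 := tendsto_pow_const_mul_const_pow_of_abs_lt_one 3 hq
  have h2 := tendsto_pow_atTop_nhds_zero_of_abs_lt_one hq
  have h3 : Tendsto (fun n : ℕ => (6 * 64 * ((j : ℝ) + 1) / c) * ((n : ℝ) ^ 3 * (sj j ^ 2) ^ n) +
      6 * (sj j ^ 2) ^ n) atTop (𝓝 ((6 * 64 * ((j : ℝ) + 1) / c) * 0 + 6 * 0)) :=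
    (h1.const_mul _).add (h2.const_mul _)
  rw [mul_zero, mul_zero, add_zero] at h3
  have hpos : (0 : ℝ) < 1 / ((j : ℝ) + 1) := by positivity
  have h4 := h3.eventually (gt_mem_nhds hpos)
  obtain ⟨n, hn1, hn2⟩ := (h4.and (eventually_ge_atTop (max j 1))).exists
  refine ⟨n, by omega, by omega, ?_⟩
  refine le_trans (le_of_eq ?_) hn1.le
  ring

noncomputable def nn (j : ℕ) (c : ℝ) : ℕ :=
  if h : 0 < c then Classical.choose (exists_n j h) else 1

theorem nn_spec (j : ℕ) {c : ℝ} (hc : 0 < c) : j ≤ nn j c ∧ 0 < nn j c ∧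
    (64 * ((j : ℝ) + 1) * (nn j c : ℝ) ^ 3 / c + 1) * (6 * (sj j ^ 2) ^ (nn j c)) ≤
      1 / ((j : ℝ) + 1) := by
  unfold nn
  rw [dif_pos hc]
  exact Classical.choose_spec (exists_n j hc)

noncomputable def bb (j n : ℕ) : ℝ := Classical.choose (exists_bound (sj j) n)

theorem bb_spec (j n : ℕ) : 1 ≤ bb j n ∧ ∀ k ≤ n, ∀ x ∈ Set.Icc (-1 : ℝ) 1,
    |(uu (sj j) k).eval x| ≤ bb j n := Classical.choose_spec (exists_bound (sj j) n)

noncomputable def cc : ℕ → ℝ
  | 0 => 1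
  | j + 1 => min (cc j / 2) (min (cc j / (64 * (nn j (cc j) : ℝ) ^ 3 * bb j (nn j (cc j))))
      ((sj j ^ 2) ^ (nn j (cc j)) / 2))

theorem cc_pos (j : ℕ) : 0 < cc j := by
  induction j with
  | zero => simp [cc]
  | succ j ih =>
    rw [cc]
    have h1 := (nn_spec j ih).2.1
    have h2 := (bb_spec j (nn j (cc j))).1
    have h3 := sj_pos j
    have h4 : (0 : ℝ) < nn j (cc j) := by exact_mod_cast h1
    apply lt_min (by positivity)
    apply lt_min (by positivity) (by positivity)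

theorem cc_good : Good cc where
  zero := by simp [cc]
  pos := cc_pos
  half := by
    intro j
    rw [cc]
    exact min_le_left _ _

theorem cc_tau (j : ℕ) : (∑' i, cc (j + 1 + i)) ≤ (sj j ^ 2) ^ (nn j (cc j)) ∧
    (∑' i, cc (j + 1 + i)) * bb j (nn j (cc j)) ≤ cc j / (32 * (nn j (cc j) : ℝ) ^ 3) := by
  have h0 := cc_good.tsum_tail (j + 1)
  have h1 := (nn_spec j (cc_pos j)).2.1
  have h2 := (bb_spec j (nn j (cc j))).1
  have h3 : (0 : ℝ) < nn j (cc j) := by exact_mod_cast h1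
  constructor
  · have : cc (j + 1) ≤ (sj j ^ 2) ^ (nn j (cc j)) / 2 := by
      rw [cc]
      exact (min_le_right _ _).trans (min_le_right _ _)
    linarith
  · have h4 : cc (j + 1) ≤ cc j / (64 * (nn j (cc j) : ℝ) ^ 3 * bb j (nn j (cc j))) := by
      rw [cc]
      exact (min_le_right _ _).trans (min_le_left _ _)
    calc (∑' i, cc (j + 1 + i)) * bb j (nn j (cc j))
        ≤ (2 * (cc j / (64 * (nn j (cc j) : ℝ) ^ 3 * bb j (nn j (cc j))))) * bb j (nn j (cc j)) := by
          apply mul_le_mul_of_nonneg_right _ (by linarith)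
          linarith
      _ = cc j / (32 * (nn j (cc j) : ℝ) ^ 3) := by
          field_simp
          ring

theorem isWeight : IsWeight (WW cc) where
  meas := WW_measurable cc_good
  nonneg := WW_nonneg cc_good
  periodic := WW_periodic cc
  integrable := W_integrable cc_good
  pos := by
    rw [integral_W cc_good]
    linarith [cc_good.one_le_tsum]

theorem main_stage (j : ℕ) :
    (∀ N ≥ ⌈64 * ((j : ℝ) + 1) * (nn j (cc j) : ℝ) ^ 3 / cc j⌉₊, Quad (WW cc) (nn j (cc j)) N) ∧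
    (⌈64 * ((j : ℝ) + 1) * (nn j (cc j) : ℝ) ^ 3 / cc j⌉₊ : ℝ) ≤
      1 / ((j : ℝ) + 1) * (Kane (WW cc) (nn j (cc j)) : ℝ) := by
  obtain ⟨h1, h2, h3⟩ := nn_spec j (cc_pos j)
  obtain ⟨h4, h5⟩ := cc_tau j
  constructor
  · intro N hN
    apply stage cc_good h2 (bb_spec j _).2 h5
    exact (Nat.le_ceil _).trans (by exact_mod_cast hN)
  · have h6 := kane_ge cc_good h2 h4
    have hr0 : 0 < (sj j ^ 2) ^ (nn j (cc j)) := by have := sj_pos j; positivity
    have hcj := cc_pos j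
    have h7 : (⌈64 * ((j : ℝ) + 1) * (nn j (cc j) : ℝ) ^ 3 / cc j⌉₊ : ℝ) ≤
        64 * ((j : ℝ) + 1) * (nn j (cc j) : ℝ) ^ 3 / cc j + 1 :=
      (Nat.ceil_lt_add_one (by positivity)).le
    have h8 : 64 * ((j : ℝ) + 1) * (nn j (cc j) : ℝ) ^ 3 / cc j + 1 ≤
        1 / ((j : ℝ) + 1) * (1 / (6 * (sj j ^ 2) ^ (nn j (cc j)))) := by
      rw [mul_one_div, le_div_iff₀ (by positivity)]
      exact h3
    refine h7.trans (h8.trans ?_)
    exact mul_le_mul_of_nonneg_left h6 (by positivity)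

end Pool.Agent.R483.KB
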