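import Pool.Agent.R483.KB.Contr

/-!
Polynomials in `cos φ`: exactness of equally spaced averages, means.
-/

namespace Pool.Agent.R483.KB

open Real Finset Polynomial Polynomial.Chebyshev

/-- Induction over `T_k ∘ L`. -/
theorem poly_ind {n : ℕ} (L : ℝ[X]) (hL : L.natDegree = 1) (Pr : ℝ[X] → Prop)
    (hadd : ∀ P Q, Pr P → Pr Q → Pr (P + Q)) (hsm : ∀ (c : ℝ) P, Pr P → Pr (C c * P))
    (hT : ∀ k : ℕ, k ≤ n → Pr ((T ℝ (k : ℤ)).comp L)) :
    ∀ P : ℝ[X], P.natDegree ≤ n → Pr P := by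
  have key : ∀ d : ℕ, d ≤ n → ∀ P : ℝ[X], P.natDegree ≤ d → Pr P := by
    intro d
    induction d with
    | zero =>
      intro _ P hP
      have h1 : P = C (P.coeff 0) := Polynomial.eq_C_of_natDegree_le_zero hP
      have h2 := hsm (P.coeff 0) _ (hT 0 (by omega))
      simp only [Nat.cast_zero, T_zero, one_comp, mul_one] at h2
      rw [h1]; exact h2
    | succ d ih =>
      intro hd P hP
      set S : ℝ[X] := (T ℝ ((d + 1 : ℕ) : ℤ)).comp L with hS
      have hSd : S.natDegree = d + 1 := by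
        rw [hS, natDegree_comp, natDegree_T, hL, mul_one, Int.natAbs_natCast]
      have hSc : S.coeff (d + 1) ≠ 0 := by
        have : S.leadingCoeff ≠ 0 := by
          rw [leadingCoeff_ne_zero]
          intro h
          rw [h] at hSd
          simp at hSd
        rw [leadingCoeff, hSd] at this
        exact this
      set c : ℝ := P.coeff (d + 1) / S.coeff (d + 1) with hc
      have h1 : (P - C c * S).natDegree ≤ d := by
        rw [Polynomial.natDegree_le_iff_coeff_eq_zero]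
        intro N hN
        rw [coeff_sub, coeff_C_mul]
        rcases Nat.lt_or_ge (d + 1) N with h | h
        · rw [Polynomial.coeff_eq_zero_of_natDegree_lt (by omega),
            Polynomial.coeff_eq_zero_of_natDegree_lt (by omega)]
          ring
        · have : N = d + 1 := by omega
          rw [this, hc, div_mul_cancel₀ _ hSc, sub_self]
      have h2 := ih (by omega) _ h1
      have h3 := hsm c _ (hT (d + 1) hd)
      have h4 := hadd _ _ h2 h3
      rw [← hS, sub_add_cancel] at h4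
      exact h4
  exact key n le_rfl

noncomputable def Mean (Q : ℝ[X]) : ℝ := (∫ φ in (-π)..π, Q.eval (cos φ)) / (2 * π)

theorem cont_eval_cos (Q : ℝ[X]) : Continuous (fun φ : ℝ => Q.eval (cos φ)) :=
  Q.continuous.comp continuous_cos

theorem Mean_add (P Q : ℝ[X]) : Mean (P + Q) = Mean P + Mean Q := by
  unfold Mean
  rw [← add_div, ← intervalIntegral.integral_add]
  · simp
  · exact (cont_eval_cos P).intervalIntegrable _ _
  · exact (cont_eval_cos Q).intervalIntegrable _ _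

theorem Mean_C_mul (c : ℝ) (P : ℝ[X]) : Mean (C c * P) = c * Mean P := by
  unfold Mean
  simp only [eval_mul, eval_C]
  rw [intervalIntegral.integral_const_mul, mul_div_assoc]

theorem integral_cos_nat {k : ℕ} (hk : 0 < k) : ∫ φ in (-π)..π, cos ((k : ℝ) * φ) = 0 := by
  have hk' : (k : ℝ) ≠ 0 := by positivity
  rw [intervalIntegral.integral_comp_mul_left (fun x => cos x) hk', integral_cos]
  have : sin ((k : ℝ) * -π) = - sin ((k : ℝ) * π) := by rw [mul_neg, sin_neg]
  rw [this, sin_nat_mul_pi]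
  simp

theorem Mean_T {k : ℕ} (hk : 0 < k) : Mean (T ℝ (k : ℤ)) = 0 := by
  unfold Mean
  have : ∀ φ : ℝ, (T ℝ (k : ℤ)).eval (cos φ) = cos ((k : ℝ) * φ) := by
    intro φ
    rw [T_real_cos]
    norm_num
  simp only [this]
  rw [integral_cos_nat hk, zero_div]

theorem Mean_one : Mean 1 = 1 := by
  unfold Mean
  simp
  field_simp
  norm_num

theorem Mean_le {Q : ℝ[X]} {B : ℝ} (h : ∀ φ : ℝ, |Q.eval (cos φ)| ≤ B) : |Mean Q| ≤ B := by
  unfold Mean
  rw [abs_div, abs_of_pos (by positivity : (0 : ℝ) < 2 * π), div_le_iff₀ (by positivity)]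
  have := intervalIntegral.norm_integral_le_of_norm_le_const (a := -π) (b := π)
    (f := fun φ => Q.eval (cos φ)) (C := B) (fun φ _ => by rw [Real.norm_eq_abs]; exact h φ)
  rw [Real.norm_eq_abs] at this
  refine this.trans (le_of_eq ?_)
  rw [show π - -π = 2 * π by ring, abs_of_pos (by positivity)]

/-- Averages over equally spaced points are exact in low degree. -/
theorem exact {M : ℕ} {Q : ℝ[X]} (h : Q.natDegree < M) :
    ∑ t ∈ range M, Q.eval (cos (ph M t)) = M * Mean Q := by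
  have hM : 0 < M := by omega
  refine poly_ind (n := M - 1) X natDegree_X
    (fun Q => ∑ t ∈ range M, Q.eval (cos (ph M t)) = M * Mean Q) ?_ ?_ ?_ Q (by omega)
  · intro P Q hP hQ
    simp only [eval_add]
    rw [Finset.sum_add_distrib, hP, hQ, Mean_add]
    ring
  · intro c P hP
    simp only [eval_mul, eval_C]
    rw [← Finset.mul_sum, hP, Mean_C_mul]
    ring
  · intro k hk
    rw [comp_X]
    rcases Nat.eq_zero_or_pos k with h0 | h0
    · subst h0
      simp only [Nat.cast_zero, T_zero, Mean_one, eval_one]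
      simp
    · rw [Mean_T h0, mul_zero]
      have : ∀ t ∈ range M, (T ℝ (k : ℤ)).eval (cos (ph M t)) = cos ((k : ℝ) * ph M t) := by
        intro t _
        rw [T_real_cos]; norm_num
      rw [Finset.sum_congr rfl this]
      exact sum_cos h0 (by omega)

/-- the affine change of variable `x ↦ 1 - s² + s² x` -/
noncomputable def Lin (s : ℝ) : ℝ[X] := C (1 - s ^ 2) + C (s ^ 2) * X

/-- its inverse `x ↦ (x - 1 + s²)/s²` -/
noncomputable def LinInv (s : ℝ) : ℝ[X] := C (1 / s ^ 2) * X + C ((s ^ 2 - 1) / s ^ 2)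

theorem natDegree_LinInv {s : ℝ} (hs : s ≠ 0) : (LinInv s).natDegree = 1 := by
  unfold LinInv
  exact natDegree_linear (by positivity)

theorem eval_Lin (s x : ℝ) : (Lin s).eval x = 1 - s ^ 2 + s ^ 2 * x := by
  unfold Lin; simp

theorem eval_LinInv (s x : ℝ) (hs : s ≠ 0) : (LinInv s).eval x = (x - 1 + s ^ 2) / s ^ 2 := by
  unfold LinInv; simp; field_simp; ring

theorem natDegree_comp_Lin_le (P : ℝ[X]) (s : ℝ) : (P.comp (Lin s)).natDegree ≤ P.natDegree := by
  refine natDegree_comp_le.trans ?_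
  have : (Lin s).natDegree ≤ 1 := by
    unfold Lin
    rw [add_comm]
    exact natDegree_linear_le
  calc P.natDegree * (Lin s).natDegree ≤ P.natDegree * 1 := Nat.mul_le_mul_left _ this
    _ = _ := mul_one _

/-- moments of the weight `w s` on polynomials in `cos θ` -/
noncomputable def MM (s : ℝ) (P : ℝ[X]) : ℝ := Mean (P.comp (Lin s))

theorem MM_add (s : ℝ) (P Q : ℝ[X]) : MM s (P + Q) = MM s P + MM s Q := by
  unfold MM; rw [add_comp, Mean_add]

theorem MM_C_mul (s c : ℝ) (P : ℝ[X]) : MM s (C c * P) = c * MM s P := by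
  unfold MM; rw [mul_comp, C_comp, Mean_C_mul]

/-- the polynomials `u_k` -/
noncomputable def uu (s : ℝ) (k : ℕ) : ℝ[X] := (T ℝ (k : ℤ)).comp (LinInv s)

theorem eval_uu_Lin {s : ℝ} (hs : s ≠ 0) (k : ℕ) (φ : ℝ) :
    (uu s k).eval (1 - s ^ 2 + s ^ 2 * cos φ) = cos ((k : ℝ) * φ) := by
  unfold uu
  rw [eval_comp, eval_LinInv _ _ hs]
  have : (1 - s ^ 2 + s ^ 2 * cos φ - 1 + s ^ 2) / s ^ 2 = cos φ := by
    field_simp; ring
  rw [this, T_real_cos]
  norm_num

theorem MM_uu {s : ℝ} (hs : s ≠ 0) {k : ℕ} (hk : 0 < k) : MM s (uu s k) = 0 := by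
  unfold MM Mean
  have : ∀ φ : ℝ, ((uu s k).comp (Lin s)).eval (cos φ) = cos ((k : ℝ) * φ) := by
    intro φ
    rw [eval_comp, eval_Lin, eval_uu_Lin hs]
  simp only [this]
  rw [integral_cos_nat hk, zero_div]

/-- `|u_k| ≤ 1` on the arc of a smaller `s'`. -/
theorem uu_le_one {s s' : ℝ} (hs' : 0 < s') (hss : s' ≤ s) (k : ℕ) (φ : ℝ) :
    |(uu s k).eval (1 - s' ^ 2 + s' ^ 2 * cos φ)| ≤ 1 := by
  have hs : 0 < s := lt_of_lt_of_le hs' hss
  unfold uu
  rw [eval_comp, eval_LinInv _ _ hs.ne']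
  set y := (1 - s' ^ 2 + s' ^ 2 * cos φ - 1 + s ^ 2) / s ^ 2 with hy
  have h1 : -1 ≤ y := by
    rw [hy, le_div_iff₀ (by positivity)]
    nlinarith [neg_one_le_cos φ, mul_self_nonneg s', mul_self_nonneg s]
  have h2 : y ≤ 1 := by
    rw [hy, div_le_iff₀ (by positivity)]
    nlinarith [cos_le_one φ, mul_self_nonneg s']
  obtain ⟨z, hz⟩ : ∃ z, cos z = y := ⟨arccos y, cos_arccos h1 h2⟩
  rw [← hz, T_real_cos]
  exact abs_cos_le_one _

theorem MM_uu_le_one {s s' : ℝ} (hs' : 0 < s') (hss : s' ≤ s) (k : ℕ) : |MM s' (uu s k)| ≤ 1 := by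
  unfold MM
  apply Mean_le
  intro φ
  rw [eval_comp, eval_Lin]
  exact uu_le_one hs' hss k φ

/-- a bound for `|u_k|`, `k ≤ n`, on `[-1,1]`. -/
theorem exists_bound (s : ℝ) (n : ℕ) : ∃ B : ℝ, 1 ≤ B ∧ ∀ k ≤ n, ∀ x ∈ Set.Icc (-1 : ℝ) 1,
    |(uu s k).eval x| ≤ B := by
  induction n with
  | zero =>
    obtain ⟨B, hB⟩ := isCompact_Icc.exists_bound_of_continuousOn (s := Set.Icc (-1 : ℝ) 1)
      (f := fun x => (uu s 0).eval x) (uu s 0).continuous.continuousOn
    refine ⟨max B 1, le_max_right _ _, ?_⟩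
    intro k hk x hx
    have : k = 0 := by omega
    subst this
    exact (hB x hx).trans (le_max_left _ _)
  | succ n ih =>
    obtain ⟨B0, hB0, hB1⟩ := ih
    obtain ⟨B, hB⟩ := isCompact_Icc.exists_bound_of_continuousOn (s := Set.Icc (-1 : ℝ) 1)
      (f := fun x => (uu s (n+1)).eval x) (uu s (n+1)).continuous.continuousOn
    refine ⟨max B0 B, hB0.trans (le_max_left _ _), ?_⟩
    intro k hk x hx
    rcases Nat.lt_or_ge k (n + 1) with h | h
    · exact (hB1 k (by omega) x hx).trans (le_max_left _ _)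
    · have : k = n + 1 := by omega
      subst this
      exact (hB x hx).trans (le_max_right _ _)

theorem MM_uu_le {s s' B : ℝ} (hs0 : 0 ≤ s') (hs1 : s' ≤ 1) {k : ℕ}
    (hB : ∀ x ∈ Set.Icc (-1 : ℝ) 1, |(uu s k).eval x| ≤ B) : |MM s' (uu s k)| ≤ B := by
  unfold MM
  apply Mean_le
  intro φ
  rw [eval_comp, eval_Lin]
  apply hB
  have h1 : s' ^ 2 ≤ 1 := by nlinarith
  constructor
  · nlinarith [neg_one_le_cos φ, mul_self_nonneg s']
  · nlinarith [cos_le_one φ, mul_self_nonneg s']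

/-- Quadrature for even polynomials reduces to the `u_k`. -/
theorem uu_ind {n : ℕ} {s : ℝ} (hs : s ≠ 0) (Pr : ℝ[X] → Prop)
    (hadd : ∀ P Q, Pr P → Pr Q → Pr (P + Q)) (hsm : ∀ (c : ℝ) P, Pr P → Pr (C c * P))
    (hT : ∀ k : ℕ, k ≤ n → Pr (uu s k)) :
    ∀ P : ℝ[X], P.natDegree ≤ n → Pr P :=
  poly_ind (LinInv s) (natDegree_LinInv hs) Pr hadd hsm hT

end Pool.Agent.R483.KB
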