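import Pool.Agent.R483.KB.Defs
import Pool.Agent.R483.KB.Series

/-!
Functionals that are sums of point evaluations, and the quadrature at one stage.
-/

namespace Pool.Agent.R483.KB

open Real Finset MeasureTheory Polynomial Polynomial.Chebyshev

/-- `A` is the sum of `N` point evaluations. -/
def Rep (A : (ℝ → ℝ) → ℝ) (N : ℕ) : Prop :=
  ∃ S : Multiset ℝ, Multiset.card S = N ∧ ∀ p : ℝ → ℝ, (S.map p).sum = A p

theorem Rep.add {A B : (ℝ → ℝ) → ℝ} {N M : ℕ} (hA : Rep A N) (hB : Rep B M) :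
    Rep (fun p => A p + B p) (N + M) := by
  obtain ⟨S, h1, h2⟩ := hA
  obtain ⟨T, h3, h4⟩ := hB
  exact ⟨S + T, by rw [Multiset.card_add, h1, h3], fun p => by
    rw [Multiset.map_add, Multiset.sum_add, h2, h4]⟩

theorem rep_range (M : ℕ) (x : ℕ → ℝ) : Rep (fun p => ∑ t ∈ range M, p (x t)) M := by
  refine ⟨(Multiset.range M).map x, by simp, fun p => ?_⟩
  rw [Multiset.map_map]
  rfl

theorem Rep.sum (j : ℕ) (A : ℕ → (ℝ → ℝ) → ℝ) (N : ℕ → ℕ) (h : ∀ i < j, Rep (A i) (N i)) :
    Rep (fun p => ∑ i ∈ range j, A i p) (∑ i ∈ range j, N i) := by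
  induction j with
  | zero => exact ⟨0, by simp, fun p => by simp⟩
  | succ j ih =>
    have h1 := (ih (fun i hi => h i (by omega))).add (h j (by omega))
    simp only [Finset.sum_range_succ]
    exact h1

theorem quad_of_rep {W : ℝ → ℝ} {n N : ℕ} {A : (ℝ → ℝ) → ℝ} (hA : Rep A N) (lam : ℝ)
    (h : ∀ p ∈ Trig n, ∫ x in (-π)..π, p x * W x = lam * A p) : Quad W n N := by
  obtain ⟨S, hS, hA⟩ := hA
  obtain ⟨l, rfl⟩ : ∃ l : List ℝ, (l : Multiset ℝ) = S := ⟨S.toList, by simp⟩
  rw [Multiset.coe_card] at hS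
  subst hS
  let θ : Fin l.length → ℝ := fun i => l[i.1]
  refine ⟨θ ∘ Tuple.sort θ, Tuple.monotone_sort θ, lam, ?_⟩
  intro p hp
  rw [h p hp, ← hA p]
  congr 1
  have h1 : ∑ i, p ((θ ∘ Tuple.sort θ) i) = ∑ i, p (θ i) :=
    Equiv.sum_comp (Tuple.sort θ) (fun i => p (θ i))
  rw [h1]
  simp only [θ, Multiset.map_coe, Multiset.sum_coe]
  rw [Fin.sum_univ_fun_getElem]

theorem TM_add {s : ℝ} {f g : ℝ → ℝ} (hf : Continuous f) (hg : Continuous g) :
    TM s (fun x => f x + g x) = TM s f + TM s g := by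
  unfold TM
  rw [← add_div, ← intervalIntegral.integral_add]
  · exact (hf.comp (Th_cont s)).intervalIntegrable _ _
  · exact (hg.comp (Th_cont s)).intervalIntegrable _ _

theorem TM_odd {s : ℝ} {f : ℝ → ℝ} (hf : ∀ x, f (-x) = - f x) : TM s f = 0 := by
  unfold TM
  have h1 : ∫ φ in (-π)..π, f (Th s (-φ)) = ∫ φ in (-π)..π, f (Th s φ) := by
    have := intervalIntegral.integral_comp_neg (a := -π) (b := π) (fun φ => f (Th s φ))
    rw [neg_neg] at this
    exact this
  have h2 : ∀ φ, f (Th s (-φ)) = - f (Th s φ) := by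
    intro φ; rw [Th_odd, hf]
  simp only [h2] at h1
  rw [intervalIntegral.integral_neg] at h1
  have : ∫ φ in (-π)..π, f (Th s φ) = 0 := by linarith
  rw [this, zero_div]

theorem TM_poly {s : ℝ} (hs0 : 0 ≤ s) (hs1 : s ≤ 1) (P : ℝ[X]) :
    TM s (fun x => P.eval (cos x)) = MM s P := by
  unfold TM MM Mean
  congr 1
  apply intervalIntegral.integral_congr
  intro φ _
  simp only
  rw [cos_Th hs0 hs1, eval_comp, eval_Lin]

/-- splitting of a trigonometric polynomial -/
theorem trig_split {n : ℕ} {p : ℝ → ℝ} (hp : p ∈ Trig n) : ∃ (P : ℝ[X]) (q : ℝ → ℝ),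
    P.natDegree ≤ n ∧ Continuous q ∧ (∀ x, q (-x) = - q x) ∧ ∀ x, p x = P.eval (cos x) + q x := by
  obtain ⟨a, b, hab⟩ := hp
  refine ⟨∑ k ∈ range (n + 1), Polynomial.C (a k) * T ℝ (k : ℤ),
    fun x => ∑ k ∈ range (n + 1), b k * sin (k * x), ?_, ?_, ?_, ?_⟩
  · apply Polynomial.natDegree_sum_le_of_forall_le
    intro k hk
    refine (Polynomial.natDegree_C_mul_le _ _).trans ?_
    rw [natDegree_T, Int.natAbs_natCast]
    rw [Finset.mem_range] at hk; omega
  · apply continuous_finsetSum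
    intro k _
    exact continuous_const.mul (continuous_sin.comp (continuous_const.mul continuous_id))
  · intro x
    simp only
    rw [← Finset.sum_neg_distrib]
    apply Finset.sum_congr rfl
    intro k _
    rw [mul_neg, sin_neg]; ring
  · intro x
    rw [hab, Finset.sum_add_distrib, eval_finsetSum]
    congr 1
    apply Finset.sum_congr rfl
    intro k _
    rw [eval_mul, eval_C, T_real_cos]
    norm_num

/-- **Quadrature at one stage.** -/
theorem stage {c : ℕ → ℝ} (hc : Good c) {j n : ℕ} (hn : 0 < n) {B : ℝ}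
    (hB : ∀ k ≤ n, ∀ x ∈ Set.Icc (-1 : ℝ) 1, |(uu (sj j) k).eval x| ≤ B)
    (hτ : (∑' i, c (j + 1 + i)) * B ≤ c j / (32 * (n : ℝ) ^ 3))
    {N : ℕ} (hN : 64 * ((j : ℝ) + 1) * (n : ℝ) ^ 3 / c j ≤ N) : Quad (WW c) n N := by
  set C : ℝ := ∑' j, c j with hC
  have hC1 : 1 ≤ C := hc.one_le_tsum
  have hC2 : C ≤ 2 := hc.tsum_le_two
  have hn1 : (1 : ℝ) ≤ n := by exact_mod_cast hn
  have hn3 : (1 : ℝ) ≤ (n : ℝ) ^ 3 := one_le_pow₀ hn1
  have hnn3 : (n : ℝ) ≤ (n : ℝ) ^ 3 := by
    have := pow_le_pow_right₀ hn1 (show 1 ≤ 3 by norm_num)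
    simpa using this
  have hcj := hc.pos j
  have hcN : 64 * ((j : ℝ) + 1) * (n : ℝ) ^ 3 ≤ c j * N := by
    rw [div_le_iff₀ hcj] at hN; linarith
  have hjn : 64 * (n : ℝ) ^ 3 ≤ 64 * ((j : ℝ) + 1) * (n : ℝ) ^ 3 := by
    have : (0 : ℝ) ≤ j := Nat.cast_nonneg j
    nlinarith
  have hNpos : (0 : ℝ) < N := by
    by_contra hcon
    push Not at hcon
    have := mul_nonpos_of_nonneg_of_nonpos hcj.le hcon
    linarith
  -- numbers of nodes
  let Ni : ℕ → ℕ := fun i => ⌊c i * N / C⌋₊
  have hNi_le : ∀ i, (Ni i : ℝ) ≤ c i * N / C := fun i => Nat.floor_le (by have := hc.pos i; positivity)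
  have hNi_lt : ∀ i, c i * N / C < Ni i + 1 := fun i => Nat.lt_floor_add_one _
  have hNi_ge : ∀ i, i ≤ j → n < Ni i := by
    intro i hi
    have h1 : c j * N / 2 ≤ c i * N / C := by
      apply div_le_div₀ (by have := hc.pos i; positivity) _ (by linarith) hC2
      exact mul_le_mul_of_nonneg_right (hc.le_of_le hi) hNpos.le
    have h2 := hNi_lt i
    have h3 : (n : ℝ) < (Ni i : ℝ) := by linarith
    exact_mod_cast h3
  have hsumc : ∑ i ∈ range j, c i + c j ≤ C := by
    rw [← Finset.sum_range_succ]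
    exact hc.summable.sum_le_tsum _ (fun i _ => (hc.pos i).le)
  have hsumN : (∑ i ∈ range j, (Ni i : ℝ)) + c j * N / C ≤ N := by
    calc (∑ i ∈ range j, (Ni i : ℝ)) + c j * N / C ≤ ∑ i ∈ range j, c i * N / C + c j * N / C := by
          gcongr with i _
          exact hNi_le i
      _ = (∑ i ∈ range j, c i + c j) * (N / C) := by
          rw [← Finset.sum_div, ← Finset.sum_mul]; ring
      _ ≤ C * (N / C) := mul_le_mul_of_nonneg_right hsumc (by positivity)
      _ = N := by field_simp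
  have hsumN' : ∑ i ∈ range j, Ni i ≤ N := by
    have h1 : (0 : ℝ) ≤ c j * N / C := by positivity
    have h2 : ((∑ i ∈ range j, Ni i : ℕ) : ℝ) ≤ N := by push_cast; linarith
    exact_mod_cast h2
  obtain ⟨M, hM⟩ := Nat.exists_eq_add_of_le hsumN'
  have hMr : (N : ℝ) = (∑ i ∈ range j, (Ni i : ℝ)) + M := by
    rw [hM]; push_cast; ring
  have hMge : c j * N / C ≤ M := by linarith
  have hMC : c j * N / 2 ≤ M := by
    refine le_trans ?_ hMge
    apply div_le_div₀ (by positivity) le_rfl (by linarith) hC2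
  have hM2n : 2 * n < M := by
    have : (2 : ℝ) * n < M := by nlinarith
    exact_mod_cast this
  have hMpos : (0 : ℝ) < M := by
    have : 0 < M := by omega
    exact_mod_cast this
  -- moments
  have hsum : ∀ k ≤ n, Summable (fun i => c i * MM (sj i) (uu (sj j) k)) := by
    intro k hk
    apply Summable.of_norm_bounded (hc.summable.mul_right B)
    intro i
    rw [norm_mul, Real.norm_eq_abs, Real.norm_eq_abs, abs_of_pos (hc.pos i)]
    exact mul_le_mul_of_nonneg_left (MM_uu_le (sj_pos i).le (sj_lt_one i).le (hB k hk)) (hc.pos i).le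
  let mom : ℕ → ℝ := fun k => ∑' i, c i * MM (sj i) (uu (sj j) k)
  let F : ℕ → ℝ := fun k => ((N / C) * mom k - ∑ i ∈ range j, (Ni i : ℝ) * MM (sj i) (uu (sj j) k)) / M
  have hFb : ∀ k, 0 < k → k ≤ n → |F k| ≤ 1 / (16 * (n : ℝ) ^ 3) := by
    intro k hk hkn
    have h1 : mom k = ∑ i ∈ range j, c i * MM (sj i) (uu (sj j) k) +
        ∑' i, c (j + 1 + i) * MM (sj (j + 1 + i)) (uu (sj j) k) := by
      have := ((hsum k hkn).sum_add_tsum_nat_add (j + 1)).symm
      rw [Finset.sum_range_succ, MM_uu (sj_pos j).ne' hk, mul_zero, add_zero] at this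
      simp only [mom]
      rw [this]
      congr 1
      apply tsum_congr
      intro i
      rw [add_comm i (j + 1)]
    have hsc : Summable (fun i => c (j + 1 + i)) := by
      have := (summable_nat_add_iff (j + 1)).mpr hc.summable
      simpa [add_comm] using this
    have h2 : |∑' i, c (j + 1 + i) * MM (sj (j + 1 + i)) (uu (sj j) k)| ≤
        (∑' i, c (j + 1 + i)) * B := by
      rw [← tsum_mul_right, ← Real.norm_eq_abs]
      apply tsum_of_norm_bounded ((hsc.mul_right B).hasSum)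
      intro i
      rw [norm_mul, Real.norm_eq_abs, Real.norm_eq_abs, abs_of_pos (hc.pos _)]
      exact mul_le_mul_of_nonneg_left (MM_uu_le (sj_pos _).le (sj_lt_one _).le (hB k hkn)) (hc.pos _).le
    have h3 : (N / C) * mom k - ∑ i ∈ range j, (Ni i : ℝ) * MM (sj i) (uu (sj j) k) =
        ∑ i ∈ range j, (c i * N / C - Ni i) * MM (sj i) (uu (sj j) k) +
        (N / C) * ∑' i, c (j + 1 + i) * MM (sj (j + 1 + i)) (uu (sj j) k) := by
      rw [h1, mul_add, Finset.mul_sum]
      have : ∑ i ∈ range j, (c i * N / C - Ni i) * MM (sj i) (uu (sj j) k) =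
          ∑ i ∈ range j, N / C * (c i * MM (sj i) (uu (sj j) k)) -
          ∑ i ∈ range j, (Ni i : ℝ) * MM (sj i) (uu (sj j) k) := by
        rw [← Finset.sum_sub_distrib]
        apply Finset.sum_congr rfl
        intro i _
        ring
      rw [this]; ring
    have h4 : |∑ i ∈ range j, (c i * N / C - Ni i) * MM (sj i) (uu (sj j) k)| ≤ j := by
      refine (Finset.abs_sum_le_sum_abs _ _).trans ?_
      calc ∑ i ∈ range j, |(c i * N / C - Ni i) * MM (sj i) (uu (sj j) k)| ≤ ∑ i ∈ range j, (1 : ℝ) := by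
            apply Finset.sum_le_sum
            intro i hi
            rw [Finset.mem_range] at hi
            rw [abs_mul]
            have h5 : |c i * N / C - Ni i| ≤ 1 := by
              rw [abs_le]
              constructor
              · linarith [hNi_le i]
              · linarith [hNi_lt i]
            calc _ ≤ (1 : ℝ) * 1 := mul_le_mul h5 (MM_uu_le_one (sj_pos i) (sj_mono hi.le) k)
                  (abs_nonneg _) zero_le_one
              _ = 1 := one_mul _
        _ = j := by simp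
    simp only [F]
    rw [abs_div, abs_of_pos hMpos, div_le_iff₀ hMpos, h3]
    refine (abs_add_le _ _).trans ?_
    rw [abs_mul, abs_of_pos (by positivity : (0 : ℝ) < N / C)]
    have h6 : (N / C) * |∑' i, c (j + 1 + i) * MM (sj (j + 1 + i)) (uu (sj j) k)| ≤
        (N / C) * (c j / (32 * (n : ℝ) ^ 3)) := by
      apply mul_le_mul_of_nonneg_left (h2.trans hτ) (by positivity)
    have h7 : (N / C) * (c j / (32 * (n : ℝ) ^ 3)) = (c j * N / C) / (32 * (n : ℝ) ^ 3) := by
      field_simp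
    have h8 : (c j * N / C) / (32 * (n : ℝ) ^ 3) ≤ M / (32 * (n : ℝ) ^ 3) := by gcongr
    have h9 : (j : ℝ) ≤ M / (32 * (n : ℝ) ^ 3) := by
      rw [le_div_iff₀ (by positivity)]
      have : (0 : ℝ) ≤ j := Nat.cast_nonneg j
      nlinarith
    calc _ ≤ M / (32 * (n : ℝ) ^ 3) + M / (32 * (n : ℝ) ^ 3) := by
          apply add_le_add (h4.trans h9)
          linarith
      _ = 1 / (16 * (n : ℝ) ^ 3) * M := by field_simp; ring
  obtain ⟨g, hg⟩ := perturb hn hM2n F hFb
  -- the functional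
  let A : (ℝ → ℝ) → ℝ := fun p => ∑ i ∈ range j, ∑ t ∈ range (Ni i), p (Th (sj i) (ph (Ni i) t)) +
    ∑ t ∈ range M, p (Th (sj j) (ph M t + GG g (ph M t)))
  have hA : Rep A N := by
    have h1 := Rep.sum j (fun i p => ∑ t ∈ range (Ni i), p (Th (sj i) (ph (Ni i) t))) Ni
      (fun i _ => rep_range (Ni i) _)
    have h2 := h1.add (rep_range M (fun t => Th (sj j) (ph M t + GG g (ph M t))))
    rw [← hM] at h2
    exact h2
  apply quad_of_rep hA (C / N)
  -- polynomials in cos
  have hpoly : ∀ P : ℝ[X], P.natDegree ≤ n →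
      (Summable (fun i => c i * MM (sj i) P) ∧
      ∑' i, c i * MM (sj i) P = C / N * (∑ i ∈ range j, (Ni i : ℝ) * MM (sj i) P +
        ∑ t ∈ range M, P.eval (cos (Th (sj j) (ph M t + GG g (ph M t)))))) := by
    apply uu_ind (sj_pos j).ne'
    · rintro P Q ⟨hP1, hP2⟩ ⟨hQ1, hQ2⟩
      have e : ∀ i, c i * MM (sj i) (P + Q) = c i * MM (sj i) P + c i * MM (sj i) Q := by
        intro i; rw [MM_add]; ring
      simp only [e]
      refine ⟨hP1.add hQ1, ?_⟩
      rw [hP1.tsum_add hQ1, hP2, hQ2]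
      have e2 : ∀ i, (Ni i : ℝ) * MM (sj i) (P + Q) = Ni i * MM (sj i) P + Ni i * MM (sj i) Q := by
        intro i; rw [MM_add]; ring
      simp only [e2, eval_add]
      rw [Finset.sum_add_distrib, Finset.sum_add_distrib]
      ring
    · rintro a P ⟨hP1, hP2⟩
      have e : ∀ i, c i * MM (sj i) (Polynomial.C a * P) = a * (c i * MM (sj i) P) := by
        intro i; rw [MM_C_mul]; ring
      simp only [e]
      refine ⟨hP1.mul_left a, ?_⟩
      rw [tsum_mul_left, hP2]
      have e2 : ∀ i, (Ni i : ℝ) * MM (sj i) (Polynomial.C a * P) = a * (Ni i * MM (sj i) P) := by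
        intro i; rw [MM_C_mul]; ring
      simp only [e2, eval_mul, eval_C]
      rw [← Finset.mul_sum, ← Finset.mul_sum]
      ring
    · intro k hk
      refine ⟨hsum k hk, ?_⟩
      have h1 : ∀ t ∈ range M, (uu (sj j) k).eval (cos (Th (sj j) (ph M t + GG g (ph M t)))) =
          cos ((k : ℝ) * (ph M t + GG g (ph M t))) := by
        intro t _
        rw [cos_Th (sj_pos j).le (sj_lt_one j).le, eval_uu_Lin (sj_pos j).ne']
      rw [Finset.sum_congr rfl h1]
      rcases Nat.eq_zero_or_pos k with h0 | h0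
      · subst h0
        have h2 : ∀ i, MM (sj i) (uu (sj j) 0) = 1 := by
          intro i
          unfold uu MM
          simp [Mean_one]
        simp only [h2, mul_one, Nat.cast_zero, zero_mul, cos_zero]
        rw [Finset.sum_const, Finset.card_range, nsmul_eq_mul, mul_one, ← hMr]
        field_simp
        exact hC.symm
      · rw [hg k h0 hk]
        simp only [F]
        rw [mul_div_cancel₀ _ hMpos.ne']
        simp only [mom]
        field_simp
        ring
  intro p hp
  obtain ⟨P, q, hPn, hqc, hqo, hpq⟩ := trig_split hp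
  obtain ⟨hP1, hP2⟩ := hpoly P hPn
  have hPc : Continuous (fun x : ℝ => P.eval (cos x)) := cont_eval_cos P
  have hpe : p = fun x => P.eval (cos x) + q x := funext hpq
  have hint : ∫ x in (-π)..π, p x * WW c x = ∑' i, c i * MM (sj i) P := by
    rw [hpe, ← (hasSum_W hc (f := fun x => P.eval (cos x) + q x) (hPc.add hqc)).tsum_eq]
    apply tsum_congr
    intro i
    have := TM_add (s := sj i) hPc hqc
    rw [TM_odd hqo, add_zero, TM_poly (sj_pos i).le (sj_lt_one i).le] at this
    rw [← this]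
  rw [hint, hP2]
  congr 1
  simp only [A]
  rw [hpe]
  congr 1
  · apply Finset.sum_congr rfl
    intro i hi
    rw [Finset.mem_range] at hi
    rw [Finset.sum_add_distrib, sum_odd (f := fun x => q (Th (sj i) x))
      (fun x => by rw [Th_odd, hqo]), add_zero]
    have h1 : ∀ t ∈ range (Ni i), P.eval (cos (Th (sj i) (ph (Ni i) t))) =
        (P.comp (Lin (sj i))).eval (cos (ph (Ni i) t)) := by
      intro t _
      rw [cos_Th (sj_pos i).le (sj_lt_one i).le, eval_comp, eval_Lin]
    rw [Finset.sum_congr rfl h1]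
    rw [exact (lt_of_le_of_lt ((natDegree_comp_Lin_le P _).trans hPn) (hNi_ge i hi.le))]
    rfl
  · rw [Finset.sum_add_distrib, sum_odd (f := fun x => q (Th (sj j) (x + GG g x)))
      (fun x => by rw [GG_odd, ← neg_add, Th_odd, hqo]), add_zero]

end Pool.Agent.R483.KB
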