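import Pool.Agent.R483.KB.Poly

/-!
The densities `wt s` and their change of variable.
-/

namespace Pool.Agent.R483.KB

open Real Set MeasureTheory

noncomputable def Th (s φ : ℝ) : ℝ := 2 * arcsin (s * sin (φ / 2))

noncomputable def wt (s θ : ℝ) : ℝ := |cos (θ / 2)| / (2 * π * √(s ^ 2 - sin (θ / 2) ^ 2))

theorem wt_nonneg (s θ : ℝ) : 0 ≤ wt s θ := by
  unfold wt; positivity

theorem wt_measurable (s : ℝ) : Measurable (wt s) := by
  unfold wt
  apply Measurable.div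
  · exact ((continuous_cos.comp (continuous_id.div_const 2)).abs).measurable
  · apply Measurable.mul measurable_const
    apply Continuous.measurable
    exact (continuous_const.sub ((continuous_sin.comp (continuous_id.div_const 2)).pow 2)).sqrt

theorem wt_periodic (s : ℝ) : Function.Periodic (wt s) (2 * π) := by
  intro θ
  unfold wt
  have h : (θ + 2 * π) / 2 = θ / 2 + π := by ring
  rw [h, cos_add_pi, sin_add_pi, abs_neg, neg_sq]

theorem Th_odd (s φ : ℝ) : Th s (-φ) = - Th s φ := by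
  unfold Th
  rw [neg_div, sin_neg, mul_neg, arcsin_neg]; ring

theorem Th_cont (s : ℝ) : Continuous (Th s) := by
  unfold Th
  exact continuous_const.mul (continuous_arcsin.comp
    (continuous_const.mul (continuous_sin.comp (continuous_id.div_const 2))))

theorem abs_s_sin_le {s : ℝ} (hs0 : 0 ≤ s) (hs1 : s ≤ 1) (x : ℝ) : |s * sin x| ≤ 1 := by
  rw [abs_mul, abs_of_nonneg hs0]
  calc s * |sin x| ≤ 1 * 1 := mul_le_mul hs1 (abs_sin_le_one x) (abs_nonneg _) zero_le_one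
    _ = 1 := one_mul _

theorem sin_half_Th {s : ℝ} (hs0 : 0 ≤ s) (hs1 : s ≤ 1) (φ : ℝ) :
    sin (Th s φ / 2) = s * sin (φ / 2) := by
  unfold Th
  have := abs_le.mp (abs_s_sin_le hs0 hs1 (φ / 2))
  rw [show 2 * arcsin (s * sin (φ / 2)) / 2 = arcsin (s * sin (φ / 2)) by ring,
    sin_arcsin this.1 this.2]

theorem cos_Th {s : ℝ} (hs0 : 0 ≤ s) (hs1 : s ≤ 1) (φ : ℝ) :
    cos (Th s φ) = 1 - s ^ 2 + s ^ 2 * cos φ := by
  have h1 : cos (Th s φ) = 1 - 2 * sin (Th s φ / 2) ^ 2 := by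
    have := cos_sq (Th s φ / 2)
    have h2 := sin_sq_add_cos_sq (Th s φ / 2)
    rw [show 2 * (Th s φ / 2) = Th s φ by ring] at this
    linarith
  have h2 : cos φ = 1 - 2 * sin (φ / 2) ^ 2 := by
    have := cos_sq (φ / 2)
    have h2 := sin_sq_add_cos_sq (φ / 2)
    rw [show 2 * (φ / 2) = φ by ring] at this
    linarith
  rw [h1, sin_half_Th hs0 hs1, h2]
  ring

theorem abs_Th_lt {s : ℝ} (hs0 : 0 ≤ s) (hs1 : s < 1) (φ : ℝ) : |Th s φ| < π := by
  unfold Th
  have h1 : |s * sin (φ / 2)| < 1 := by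
    rw [abs_mul, abs_of_nonneg hs0]
    calc s * |sin (φ / 2)| ≤ s * 1 := by gcongr; exact abs_sin_le_one _
      _ < 1 := by linarith
  rw [abs_lt] at h1 ⊢
  have h2 := arcsin_lt_pi_div_two.mpr h1.2
  have h3 := neg_pi_div_two_lt_arcsin.mpr h1.1
  constructor <;> linarith

/-- the open arc -/
def Arc (s : ℝ) : Set ℝ := {θ | -π < θ ∧ θ < π ∧ |sin (θ / 2)| < s}

theorem arc_measurable (s : ℝ) : MeasurableSet (Arc s) := by
  apply IsOpen.measurableSet
  have : Arc s = {θ | -π < θ} ∩ ({θ | θ < π} ∩ {θ | |sin (θ / 2)| < s}) := by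
    ext θ; simp [Arc]
  rw [this]
  apply IsOpen.inter (isOpen_lt continuous_const continuous_id)
  apply IsOpen.inter (isOpen_lt continuous_id continuous_const)
  exact isOpen_lt ((continuous_sin.comp (continuous_id.div_const 2)).abs) continuous_const

theorem half_mem {φ : ℝ} (h : φ ∈ Ioo (-π) π) : φ / 2 ∈ Ioo (-(π / 2)) (π / 2) :=
  ⟨by linarith [h.1], by linarith [h.2]⟩

theorem abs_sin_half_lt {φ : ℝ} (h : φ ∈ Ioo (-π) π) : |sin (φ / 2)| < 1 := by
  have h1 := cos_pos_of_mem_Ioo (half_mem h)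
  have h2 := sin_sq_add_cos_sq (φ / 2)
  rw [abs_lt]
  constructor <;> nlinarith

theorem image_Th {s : ℝ} (hs0 : 0 < s) (hs1 : s < 1) : Th s '' Ioo (-π) π = Arc s := by
  ext θ
  constructor
  · rintro ⟨φ, hφ, rfl⟩
    have h1 := abs_lt.mp (abs_Th_lt hs0.le hs1 φ)
    refine ⟨h1.1, h1.2, ?_⟩
    rw [sin_half_Th hs0.le hs1.le, abs_mul, abs_of_pos hs0]
    have := abs_sin_half_lt hφ
    nlinarith
  · rintro ⟨h1, h2, h3⟩
    refine ⟨2 * arcsin (sin (θ / 2) / s), ?_, ?_⟩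
    · have h4 : |sin (θ / 2) / s| < 1 := by
        rw [abs_div, abs_of_pos hs0, div_lt_one hs0]; exact h3
      rw [abs_lt] at h4
      have h5 := arcsin_lt_pi_div_two.mpr h4.2
      have h6 := neg_pi_div_two_lt_arcsin.mpr h4.1
      constructor <;> linarith
    · unfold Th
      have h4 : |sin (θ / 2) / s| < 1 := by
        rw [abs_div, abs_of_pos hs0, div_lt_one hs0]; exact h3
      rw [abs_lt] at h4
      rw [show 2 * arcsin (sin (θ / 2) / s) / 2 = arcsin (sin (θ / 2) / s) by ring,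
        sin_arcsin h4.1.le h4.2.le, mul_div_cancel₀ _ hs0.ne', arcsin_sin (by linarith) (by linarith)]
      ring

theorem inj_Th {s : ℝ} (hs0 : 0 < s) (hs1 : s < 1) : InjOn (Th s) (Ioo (-π) π) := by
  intro x hx y hy h
  have h1 : sin (Th s x / 2) = sin (Th s y / 2) := by rw [h]
  rw [sin_half_Th hs0.le hs1.le, sin_half_Th hs0.le hs1.le] at h1
  have h2 : sin (x / 2) = sin (y / 2) := mul_left_cancel₀ hs0.ne' h1
  have h3 := injOn_sin (show x / 2 ∈ Icc (-(π/2)) (π/2) from ⟨by linarith [hx.1], by linarith [hx.2]⟩)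
    (show y / 2 ∈ Icc (-(π/2)) (π/2) from ⟨by linarith [hy.1], by linarith [hy.2]⟩) h2
  linarith

noncomputable def dTh (s φ : ℝ) : ℝ := s * cos (φ / 2) / √(1 - (s * sin (φ / 2)) ^ 2)

theorem hasDeriv_Th {s : ℝ} (hs0 : 0 < s) (hs1 : s < 1) (φ : ℝ) :
    HasDerivAt (Th s) (dTh s φ) φ := by
  have h1 : |s * sin (φ / 2)| < 1 := by
    rw [abs_mul, abs_of_pos hs0]
    calc s * |sin (φ / 2)| ≤ s * 1 := by gcongr; exact abs_sin_le_one _
      _ < 1 := by linarith
  rw [abs_lt] at h1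
  have h2 : HasDerivAt (fun φ : ℝ => s * sin (φ / 2)) (s * (cos (φ / 2) * (1 / 2))) φ := by
    have h3 : HasDerivAt (fun φ : ℝ => φ / 2) (1 / 2) φ := by
      simpa using (hasDerivAt_id φ).div_const 2
    exact h3.sin.const_mul s
  have h4 := (hasDerivAt_arcsin h1.1.ne' h1.2.ne).comp φ h2
  have h5 := h4.const_mul 2
  unfold Th dTh
  refine h5.congr_deriv ?_
  ring

theorem key_density {s : ℝ} (hs0 : 0 < s) (hs1 : s < 1) {φ : ℝ} (hφ : φ ∈ Ioo (-π) π) :
    |dTh s φ| * wt s (Th s φ) = 1 / (2 * π) := by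
  have hc := cos_pos_of_mem_Ioo (half_mem hφ)
  have h1 : 0 < 1 - (s * sin (φ / 2)) ^ 2 := by
    have h2 := abs_sin_half_lt hφ
    rw [abs_lt] at h2
    have h3 : sin (φ / 2) ^ 2 < 1 := by nlinarith
    have h4 : s ^ 2 < 1 := by nlinarith
    have h5 : (s * sin (φ / 2)) ^ 2 = s ^ 2 * sin (φ / 2) ^ 2 := by ring
    rw [h5]
    nlinarith [sq_nonneg (sin (φ / 2)), sq_nonneg s]
  have hsq := Real.sqrt_pos.mpr h1
  have hcosTh : |cos (Th s φ / 2)| = √(1 - (s * sin (φ / 2)) ^ 2) := by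
    rw [← Real.sqrt_sq_eq_abs]
    congr 1
    have := sin_sq_add_cos_sq (Th s φ / 2)
    rw [sin_half_Th hs0.le hs1.le] at this
    linarith
  have hsq2 : √(s ^ 2 - sin (Th s φ / 2) ^ 2) = s * cos (φ / 2) := by
    rw [sin_half_Th hs0.le hs1.le]
    have : s ^ 2 - (s * sin (φ / 2)) ^ 2 = (s * cos (φ / 2)) ^ 2 := by
      have := sin_sq_add_cos_sq (φ / 2)
      have h6 : sin (φ / 2) ^ 2 = 1 - cos (φ / 2) ^ 2 := by linarith
      rw [mul_pow, h6]; ring
    rw [this, Real.sqrt_sq (by positivity)]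
  unfold dTh wt
  rw [hcosTh, hsq2, abs_of_pos (by positivity)]
  generalize √(1 - (s * sin (φ / 2)) ^ 2) = A at hsq
  field_simp

theorem wt_zero_off {s : ℝ} {θ : ℝ} (hs : 0 ≤ s) (h : s ≤ |sin (θ / 2)|) : wt s θ = 0 := by
  unfold wt
  have : s ^ 2 - sin (θ / 2) ^ 2 ≤ 0 := by
    rw [← sq_abs (sin (θ / 2))]
    nlinarith
  rw [Real.sqrt_eq_zero_of_nonpos this]
  simp

theorem change_integrable {s : ℝ} (hs0 : 0 < s) (hs1 : s < 1) {f : ℝ → ℝ} (hf : Continuous f) :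
    IntegrableOn (fun θ => f θ * wt s θ) (Ioo (-π) π) := by
  have h1 : IntegrableOn (fun θ => f θ * wt s θ) (Arc s) := by
    rw [← image_Th hs0 hs1, integrableOn_image_iff_integrableOn_abs_deriv_smul measurableSet_Ioo
      (fun x _ => (hasDeriv_Th hs0 hs1 x).hasDerivWithinAt) (inj_Th hs0 hs1)]
    have h2 : IntegrableOn (fun φ => f (Th s φ) * (1 / (2 * π))) (Ioo (-π) π) := by
      apply IntegrableOn.mono_set _ Ioo_subset_Icc_self
      exact ((hf.comp (Th_cont s)).mul continuous_const).continuousOn.integrableOn_compact isCompact_Icc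
    refine h2.congr_fun ?_ measurableSet_Ioo
    intro φ hφ
    simp only [smul_eq_mul]
    rw [← key_density hs0 hs1 hφ]
    ring
  refine h1.of_forall_sdiff_eq_zero measurableSet_Ioo ?_
  rintro θ ⟨hθ, hθ'⟩
  have : s ≤ |sin (θ / 2)| := by
    by_contra hcon
    push Not at hcon
    exact hθ' ⟨hθ.1, hθ.2, hcon⟩
  simp only [wt_zero_off hs0.le this, mul_zero]

theorem change {s : ℝ} (hs0 : 0 < s) (hs1 : s < 1) (f : ℝ → ℝ) :
    ∫ θ in Ioo (-π) π, f θ * wt s θ = (∫ φ in Ioo (-π) π, f (Th s φ)) * (1 / (2 * π)) := by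
  have h0 : ∫ θ in Ioo (-π) π, f θ * wt s θ = ∫ θ in Arc s, f θ * wt s θ := by
    apply setIntegral_eq_of_subset_of_forall_sdiff_eq_zero measurableSet_Ioo
    · intro θ hθ; exact ⟨hθ.1, hθ.2.1⟩
    · rintro θ ⟨hθ, hθ'⟩
      have : s ≤ |sin (θ / 2)| := by
        by_contra hcon
        push Not at hcon
        exact hθ' ⟨hθ.1, hθ.2, hcon⟩
      rw [wt_zero_off hs0.le this, mul_zero]
  rw [h0, ← image_Th hs0 hs1, integral_image_eq_integral_abs_deriv_smul measurableSet_Ioo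
      (fun x _ => (hasDeriv_Th hs0 hs1 x).hasDerivWithinAt) (inj_Th hs0 hs1), ← integral_mul_const]
  apply setIntegral_congr_fun measurableSet_Ioo
  intro φ hφ
  simp only [smul_eq_mul]
  rw [← key_density hs0 hs1 hφ]
  ring

end Pool.Agent.R483.KB
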